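import Mathlib

/-! Generic linear algebra of subquotients: comparison isomorphisms and the Euler-Poincare
formula for a `Z/2`-graded complex of subquotients. -/

namespace Pool.Agent.MP_8be872_ag.H29

open Module

variable {N N' : Type} [AddCommGroup N] [Module ℂ N] [AddCommGroup N'] [Module ℂ N']

/-- A linear map inducing a bijection of subquotients. -/
theorem subquot_equiv (f : N →ₗ[ℂ] N') (C D : Submodule ℂ N) (C' D' : Submodule ℂ N')
    (h1 : ∀ x ∈ C, f x ∈ C') (h2 : ∀ x ∈ C, x ∈ D → f x ∈ D') (h3 : ∀ x ∈ C, f x ∈ D' → x ∈ D)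
    (h4 : ∀ y ∈ C', ∃ x ∈ C, y - f x ∈ D') :
    Nonempty ((C ⧸ D.submoduleOf C) ≃ₗ[ℂ] (C' ⧸ D'.submoduleOf C')) := by
  let g : C →ₗ[ℂ] C' := f.restrict h1
  let g' : C →ₗ[ℂ] (C' ⧸ D'.submoduleOf C') := (D'.submoduleOf C').mkQ ∘ₗ g
  have hs : Function.Surjective g' := by
    intro y
    obtain ⟨y, rfl⟩ := (D'.submoduleOf C').mkQ_surjective y
    obtain ⟨x, hx, hy⟩ := h4 y.1 y.2
    refine ⟨⟨x, hx⟩, ?_⟩
    refine ((Submodule.Quotient.eq _).2 ?_).symm
    exact hy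
  have hk : D.submoduleOf C = LinearMap.ker g' := by
    ext x
    rw [LinearMap.mem_ker]
    refine Iff.trans ?_ (Submodule.Quotient.mk_eq_zero (D'.submoduleOf C') (x := g x)).symm
    exact ⟨h2 x.1 x.2, h3 x.1 x.2⟩
  exact ⟨(Submodule.quotEquivOfEq _ _ hk).trans (g'.quotKerEquivOfSurjective hs)⟩

theorem subquot_equiv_map (C B : Submodule ℂ N) :
    Nonempty ((C ⧸ B.submoduleOf C) ≃ₗ[ℂ] C.map B.mkQ) := by
  obtain ⟨e⟩ := subquot_equiv B.mkQ C B (C.map B.mkQ) ⊥ (fun x hx => Submodule.mem_map_of_mem hx)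
    (fun x _ hx => (Submodule.mem_bot ℂ).2 ((Submodule.Quotient.mk_eq_zero B).2 hx))
    (fun x _ hx => (Submodule.Quotient.mk_eq_zero B).1 ((Submodule.mem_bot ℂ).1 hx))
    (by rintro _ ⟨x, hx, rfl⟩; exact ⟨x, hx, by rw [sub_self]; exact zero_mem _⟩)
  refine ⟨e.trans (Submodule.quotEquivOfEqBot _ ?_)⟩
  ext x
  simp [Submodule.submoduleOf]

theorem finrank_subquot (C D : Submodule ℂ N) [FiniteDimensional ℂ C] (h : D ≤ C) :
    finrank ℂ (C ⧸ D.submoduleOf C) + finrank ℂ D = finrank ℂ C := by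
  rw [← (Submodule.submoduleOfEquivOfLe h).finrank_eq]
  exact Submodule.finrank_quotient_add_finrank _

theorem finrank_map_add_inf_ker (d : N →ₗ[ℂ] N') (X : Submodule ℂ N) [FiniteDimensional ℂ X] :
    finrank ℂ (X.map d) + finrank ℂ (X ⊓ LinearMap.ker d : Submodule ℂ N) = finrank ℂ X := by
  rw [← (d.domRestrict X).finrank_range_add_finrank_ker, LinearMap.range_domRestrict,
    ← (Submodule.submoduleOfEquivOfLe (inf_le_left : X ⊓ LinearMap.ker d ≤ X)).finrank_eq]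
  have h : (X ⊓ LinearMap.ker d).submoduleOf X = LinearMap.ker (d.domRestrict X) := by
    ext x
    simp [Submodule.submoduleOf]
  rw [h]

/-- One step of the Euler-Poincare count. -/
theorem cohom_step (d : N →ₗ[ℂ] N) (C C' B : Submodule ℂ N) (hB : B ≤ B.comap d)
    (hC : ∀ y ∈ C', ∃ z ∈ C, d y - z ∈ B) (hdd : ∀ y ∈ C', d (d y) ∈ B)
    [FiniteDimensional ℂ (C.map B.mkQ)] :
    FiniteDimensional ℂ ((C ⊓ B.comap d : Submodule ℂ N) ⧸
      (C'.map d ⊔ B).submoduleOf (C ⊓ B.comap d)) ∧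
    finrank ℂ ((C ⊓ B.comap d : Submodule ℂ N) ⧸ (C'.map d ⊔ B).submoduleOf (C ⊓ B.comap d)) +
      finrank ℂ ((C'.map B.mkQ).map (B.mapQ B d hB)) +
      finrank ℂ ((C.map B.mkQ).map (B.mapQ B d hB)) = finrank ℂ (C.map B.mkQ) := by
  set db := B.mapQ B d hB with hdb
  have hle : (C'.map B.mkQ).map db ≤ C.map B.mkQ ⊓ LinearMap.ker db := by
    rintro _ ⟨_, ⟨y, hy, rfl⟩, rfl⟩
    obtain ⟨z, hz, hyz⟩ := hC y hy
    refine ⟨⟨z, hz, ((Submodule.Quotient.eq _).2 hyz).symm⟩, ?_⟩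
    exact (Submodule.Quotient.mk_eq_zero B).2 (hdd y hy)
  obtain ⟨e⟩ := subquot_equiv B.mkQ (C ⊓ B.comap d) (C'.map d ⊔ B)
    (C.map B.mkQ ⊓ LinearMap.ker db) ((C'.map B.mkQ).map db)
    (fun x hx => ⟨Submodule.mem_map_of_mem hx.1, (Submodule.Quotient.mk_eq_zero B).2 hx.2⟩)
    (fun x _ hx => by
      obtain ⟨_, ⟨y, hy, rfl⟩, b, hb, rfl⟩ := Submodule.mem_sup.1 hx
      refine ⟨_, ⟨y, hy, rfl⟩, (Submodule.Quotient.eq _).2 ?_⟩
      rw [sub_add_cancel_left]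
      exact neg_mem hb)
    (fun x _ hx => by
      obtain ⟨_, ⟨y, hy, rfl⟩, h⟩ := hx
      have h1 : d y - x ∈ B := (Submodule.Quotient.eq _).1 h
      exact Submodule.mem_sup.2 ⟨d y, ⟨y, hy, rfl⟩, -(d y - x), neg_mem h1, by abel⟩)
    (by
      rintro _ ⟨⟨x, hx, rfl⟩, h⟩
      exact ⟨x, ⟨hx, (Submodule.Quotient.mk_eq_zero B).1 h⟩, by rw [sub_self]; exact zero_mem _⟩)
  have : FiniteDimensional ℂ (C.map B.mkQ ⊓ LinearMap.ker db : Submodule ℂ (N ⧸ B)) :=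
    Submodule.finiteDimensional_inf_left _ _
  refine ⟨e.symm.finiteDimensional, ?_⟩
  rw [e.finrank_eq, finrank_subquot _ _ hle, add_comm]
  exact finrank_map_add_inf_ker db _

/-- Euler-Poincare formula for the `Z/2`-graded complex `C p / B` with differential `d`. -/
theorem euler_poincare (d : N →ₗ[ℂ] N) (C : Bool → Submodule ℂ N) (B : Submodule ℂ N)
    (hB : ∀ b ∈ B, d b ∈ B) (hC : ∀ p, ∀ y ∈ C (!p), ∃ z ∈ C p, d y - z ∈ B)
    (hdd : ∀ p, ∀ y ∈ C p, d (d y) ∈ B)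
    (hfin : ∀ p, FiniteDimensional ℂ (C p ⧸ B.submoduleOf (C p))) :
    (∀ p, FiniteDimensional ℂ ((C p ⊓ B.comap d : Submodule ℂ N) ⧸
      ((C (!p)).map d ⊔ B).submoduleOf (C p ⊓ B.comap d))) ∧
    (finrank ℂ ((C false ⊓ B.comap d : Submodule ℂ N) ⧸
        ((C true).map d ⊔ B).submoduleOf (C false ⊓ B.comap d)) : ℤ) -
      finrank ℂ ((C true ⊓ B.comap d : Submodule ℂ N) ⧸
        ((C false).map d ⊔ B).submoduleOf (C true ⊓ B.comap d)) =
      (finrank ℂ (C false ⧸ B.submoduleOf (C false)) : ℤ) -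
        finrank ℂ (C true ⧸ B.submoduleOf (C true)) := by
  have hf : ∀ p, FiniteDimensional ℂ ((C p).map B.mkQ) := fun p => by
    obtain ⟨e⟩ := subquot_equiv_map (C p) B
    have := hfin p
    exact e.finiteDimensional
  refine ⟨fun p => ?_, ?_⟩
  · have := hf p
    exact (cohom_step d (C p) (C (!p)) B hB (hC p) (hdd _)).1
  · have := hf false
    have := hf true
    have h1 := (cohom_step d (C false) (C true) B hB (hC false) (hdd _)).2
    have h2 := (cohom_step d (C true) (C false) B hB (hC true) (hdd _)).2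
    obtain ⟨e0⟩ := subquot_equiv_map (C false) B
    obtain ⟨e1⟩ := subquot_equiv_map (C true) B
    rw [e0.finrank_eq, e1.finrank_eq]
    omega

end Pool.Agent.MP_8be872_ag.H29
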