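import Pool.Agent.MP_8be872_ag.H29.Square
import Pool.Agent.MP_8be872_ag.H29.Quot

/-! Homological algebra of the Chevalley-Eilenberg complex. -/

namespace Pool.Agent.MP_8be872_ag.H29

open Finset H56 Module

section Ext

variable {O M : Type} [Fintype O] [DecidableEq O] [AddCommGroup M] [Module ℂ M]

omit [Fintype O] [DecidableEq O] in
theorem extOf_mono {Y Z : Submodule ℂ M} (h : Y ≤ Z) : extOf O Y ≤ extOf O Z :=
  fun _ hφ => mem_extOf.2 fun S => h (mem_extOf.1 hφ S)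

omit [Fintype O] [DecidableEq O] in
/-- Homogeneous cochains modulo `B` as a product. -/
theorem ext_quot_equiv (c : O → H38.G) (W : H38.G → Submodule ℂ M) (Z B : Submodule ℂ M)
    (γ : H38.G) (p : Bool) :
    Nonempty (((extOf O Z ⊓ extW c W γ ⊓ par O M p : Submodule ℂ (Finset O → M)) ⧸
      (extOf O B).submoduleOf (extOf O Z ⊓ extW c W γ ⊓ par O M p)) ≃ₗ[ℂ]
      ((S : {S : Finset O // decide (Odd S.card) = p}) → Qt W Z B (γ - ∑ o ∈ S.1, c o))) := by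
  let C : Submodule ℂ (Finset O → M) := extOf O Z ⊓ extW c W γ ⊓ par O M p
  let f : (S : Finset O) → C →ₗ[ℂ] (Z ⊓ W (γ - ∑ o ∈ S, c o) : Submodule ℂ M) := fun S =>
    ((LinearMap.proj S : (Finset O → M) →ₗ[ℂ] M) ∘ₗ C.subtype).codRestrict _
      fun φ => ⟨mem_extOf.1 φ.2.1.1 S, mem_extW.1 φ.2.1.2 S⟩
  let F : C →ₗ[ℂ]
      ((S : {S : Finset O // decide (Odd S.card) = p}) → Qt W Z B (γ - ∑ o ∈ S.1, c o)) :=
    LinearMap.pi fun S => (B.submoduleOf _).mkQ ∘ₗ f S.1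
  have hs : Function.Surjective F := by
    intro y
    have h1 : ∀ S, ∃ z, (B.submoduleOf _).mkQ z = y S := fun S =>
      (B.submoduleOf _).mkQ_surjective (y S)
    choose z hz using h1
    refine ⟨⟨fun S => if h : decide (Odd S.card) = p then (z ⟨S, h⟩).1 else 0,
      ⟨mem_extOf.2 fun S => ?_, mem_extW.2 fun S => ?_⟩, mem_par.2 fun S hS => dif_neg hS⟩, ?_⟩
    · split_ifs with h
      · exact (z ⟨S, h⟩).2.1
      · exact zero_mem _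
    · split_ifs with h
      · exact (z ⟨S, h⟩).2.2
      · exact zero_mem _
    · funext S
      rw [← hz S]
      exact congrArg (B.submoduleOf _).mkQ (Subtype.ext (dif_pos S.2))
  have hk : (extOf O B).submoduleOf C = LinearMap.ker F := by
    ext φ
    rw [LinearMap.mem_ker]
    constructor
    · intro h
      funext S
      exact (Submodule.Quotient.mk_eq_zero _).2 (mem_extOf.1 h S.1)
    · intro h
      refine mem_extOf.2 fun S => ?_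
      by_cases hS : decide (Odd S.card) = p
      · exact (Submodule.Quotient.mk_eq_zero (B.submoduleOf _) (x := f S φ)).1 (congrFun h ⟨S, hS⟩)
      · have h1 : φ.1 S = 0 := mem_par.1 φ.2.2 S hS
        change φ.1 S ∈ B
        rw [h1]
        exact zero_mem _
  exact ⟨(Submodule.quotEquivOfEq _ _ hk).trans (F.quotKerEquivOfSurjective hs)⟩

theorem ext_quot_finite (c : O → H38.G) (W : H38.G → Submodule ℂ M) (Z B : Submodule ℂ M)
    (γ : H38.G) (h : ∀ γ', FiniteDimensional ℂ (Qt W Z B γ')) (p : Bool) :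
    FiniteDimensional ℂ ((extOf O Z ⊓ extW c W γ ⊓ par O M p : Submodule ℂ (Finset O → M)) ⧸
      (extOf O B).submoduleOf (extOf O Z ⊓ extW c W γ ⊓ par O M p)) := by
  obtain ⟨e⟩ := ext_quot_equiv c W Z B γ p
  exact e.symm.finiteDimensional

theorem ext_quot_euler (c : O → H38.G) (W : H38.G → Submodule ℂ M) (Z B : Submodule ℂ M)
    (γ : H38.G) (h : ∀ γ', FiniteDimensional ℂ (Qt W Z B γ')) :
    (finrank ℂ ((extOf O Z ⊓ extW c W γ ⊓ par O M false : Submodule ℂ (Finset O → M)) ⧸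
      (extOf O B).submoduleOf (extOf O Z ⊓ extW c W γ ⊓ par O M false)) : ℤ) -
    finrank ℂ ((extOf O Z ⊓ extW c W γ ⊓ par O M true : Submodule ℂ (Finset O → M)) ⧸
      (extOf O B).submoduleOf (extOf O Z ⊓ extW c W γ ⊓ par O M true)) =
    ∑ S : Finset O, (-1) ^ S.card * (finrank ℂ (Qt W Z B (γ - ∑ o ∈ S, c o)) : ℤ) := by
  obtain ⟨e0⟩ := ext_quot_equiv c W Z B γ false
  obtain ⟨e1⟩ := ext_quot_equiv c W Z B γ true
  rw [e0.finrank_eq, e1.finrank_eq, finrank_pi_fintype, finrank_pi_fintype, Nat.cast_sum,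
    Nat.cast_sum,
    ← sum_subtype (univ.filter fun S : Finset O => decide (Odd S.card) = false) (by simp)
      (fun S => (finrank ℂ (Qt W Z B (γ - ∑ o ∈ S, c o)) : ℤ)),
    ← sum_subtype (univ.filter fun S : Finset O => decide (Odd S.card) = true) (by simp)
      (fun S => (finrank ℂ (Qt W Z B (γ - ∑ o ∈ S, c o)) : ℤ)),
    sum_filter, sum_filter, ← sum_sub_distrib]
  refine sum_congr rfl fun S _ => ?_
  rcases Nat.even_or_odd S.card with h1 | h1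
  · rw [h1.neg_one_pow]
    simp [Nat.not_odd_iff_even.2 h1]
  · rw [h1.neg_one_pow]
    simp [h1]

end Ext

variable {V M : Type} [Fintype V] [DecidableEq V] [AddCommGroup M] [Module ℂ M]
  {R : V × V → Prop} [DecidablePred R] {x : V → H38.G} {W : H38.G → Submodule ℂ M}
  {ρ : V × V → M →ₗ[ℂ] M}

omit [Fintype V] [DecidableEq V] [DecidablePred R] in
theorem cochains_mono {Y Z : Submodule ℂ M} (h : Y ≤ Z) (γ : H38.G) (p : Bool) :
    cochains R x W Y γ p ≤ cochains R x W Z γ p :=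
  fun _ hφ => ⟨⟨extOf_mono h hφ.1.1, hφ.1.2⟩, hφ.2⟩

omit [Fintype V] [DecidableEq V] [DecidablePred R] in
theorem mem_cochains_of {Y Z : Submodule ℂ M} {γ : H38.G} {p : Bool}
    {φ : Finset (Subtype R) → M} (h : φ ∈ cochains R x W Z γ p) (h' : φ ∈ extOf (Subtype R) Y) :
    φ ∈ cochains R x W Y γ p := ⟨⟨h', h.1.2⟩, h.2⟩

theorem mem_cobounds {Z B : Submodule ℂ M} {γ : H38.G} {p : Bool} {φ : Finset (Subtype R) → M} :
    φ ∈ cobounds R x W ρ Z B γ p ↔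
      ∃ ψ ∈ cochains R x W Z γ (!p), φ - dCE R ρ ψ ∈ extOf (Subtype R) B := by
  constructor
  · intro h
    obtain ⟨_, ⟨ψ, hψ, rfl⟩, b, hb, rfl⟩ := Submodule.mem_sup.1 h
    exact ⟨ψ, hψ, by rwa [add_sub_cancel_left]⟩
  · rintro ⟨ψ, hψ, h⟩
    exact Submodule.mem_sup.2 ⟨_, ⟨ψ, hψ, rfl⟩, _, h, by abel⟩

theorem mem_cocycles {Z B : Submodule ℂ M} {γ : H38.G} {p : Bool} {φ : Finset (Subtype R) → M} :
    φ ∈ cocycles R x W ρ Z B γ p ↔
      φ ∈ cochains R x W Z γ p ∧ dCE R ρ φ ∈ extOf (Subtype R) B := Iff.rfl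

theorem cobounds_mono {Z Z' B B' : Submodule ℂ M} (h : Z ≤ Z') (h' : B ≤ B') (γ : H38.G)
    (p : Bool) : cobounds R x W ρ Z B γ p ≤ cobounds R x W ρ Z' B' γ p :=
  sup_le_sup (Submodule.map_mono (cochains_mono h _ _)) (extOf_mono h')

theorem cocycles_mono {Z Z' B B' : Submodule ℂ M} (h : Z ≤ Z') (h' : B ≤ B') (γ : H38.G)
    (p : Bool) : cocycles R x W ρ Z B γ p ≤ cocycles R x W ρ Z' B' γ p :=
  fun _ hφ => ⟨cochains_mono h _ _ hφ.1, extOf_mono h' hφ.2⟩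

theorem dCE_mem_cochains' (h : IsRep R x W ρ) {Z : Submodule ℂ M}
    (hZ : ∀ r, R r → ∀ m ∈ Z, ρ r m ∈ Z) {γ : H38.G} {p : Bool} {φ : Finset (Subtype R) → M}
    (hφ : φ ∈ cochains R x W Z γ (!p)) : dCE R ρ φ ∈ cochains R x W Z γ p := by
  have h1 := dCE_mem_cochains h hZ hφ
  rwa [Bool.not_not] at h1

theorem acyc_iff (Z B : Submodule ℂ M) (γ : H38.G) :
    Acyc R x W ρ Z B γ ↔ ∀ p, Subsingleton (Hu R x W ρ Z B γ p) :=
  forall_congr' fun _ => by rw [Submodule.Quotient.subsingleton_iff, Submodule.submoduleOf_eq_top]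

theorem equiv_of_acyc_sub (hR : IsRoots R) (h : IsRep R x W ρ) {Z Y B : Submodule ℂ M}
    (hZ : IsSub R W ρ Z) (hBY : B ≤ Y) (hYZ : Y ≤ Z) (γ : H38.G) (ha : Acyc R x W ρ Y B γ)
    (p : Bool) : Nonempty (Hu R x W ρ Z B γ p ≃ₗ[ℂ] Hu R x W ρ Z Y γ p) := by
  refine subquot_equiv LinearMap.id _ _ _ _ (fun φ hφ => cocycles_mono le_rfl hBY γ p hφ)
    (fun φ _ hφ => cobounds_mono le_rfl hBY γ p hφ) (fun φ hφ hφ' => ?_) fun φ hφ => ?_
  · obtain ⟨ψ, hψ, hy⟩ := mem_cobounds.1 hφ'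
    have h1 : φ - dCE R ρ ψ ∈ cocycles R x W ρ Y B γ p := by
      refine mem_cocycles.2
        ⟨mem_cochains_of (sub_mem hφ.1 (dCE_mem_cochains' h hZ.stab hψ)) hy, ?_⟩
      rw [map_sub, dCE_dCE hR h, sub_zero]
      exact hφ.2
    have h2 := cobounds_mono hYZ le_rfl γ p (ha p h1)
    have h3 : dCE R ρ ψ ∈ cobounds R x W ρ Z B γ p :=
      mem_cobounds.2 ⟨ψ, hψ, by rw [sub_self]; exact zero_mem _⟩
    have h4 := add_mem h2 h3
    rwa [sub_add_cancel] at h4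
  · have h1 : dCE R ρ φ ∈ cocycles R x W ρ Y B γ (!p) := by
      refine mem_cocycles.2 ⟨mem_cochains_of (dCE_mem_cochains h hZ.stab hφ.1) hφ.2, ?_⟩
      rw [dCE_dCE hR h]
      exact zero_mem _
    obtain ⟨ψ, hψ, hb⟩ := mem_cobounds.1 (ha _ h1)
    rw [Bool.not_not] at hψ
    refine ⟨φ - ψ, mem_cocycles.2 ⟨sub_mem hφ.1 (cochains_mono hYZ _ _ hψ), ?_⟩, ?_⟩
    · rwa [map_sub]
    · rw [LinearMap.id_apply, sub_sub_cancel]
      exact Submodule.mem_sup_right hψ.1.1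

theorem equiv_of_acyc_quot (hR : IsRoots R) (h : IsRep R x W ρ) {Z Y B : Submodule ℂ M}
    (hZ : IsSub R W ρ Z) (hBY : B ≤ Y) (hYZ : Y ≤ Z) (γ : H38.G) (ha : Acyc R x W ρ Z Y γ)
    (p : Bool) : Nonempty (Hu R x W ρ Y B γ p ≃ₗ[ℂ] Hu R x W ρ Z B γ p) := by
  refine subquot_equiv LinearMap.id _ _ _ _ (fun φ hφ => cocycles_mono hYZ le_rfl γ p hφ)
    (fun φ _ hφ => cobounds_mono hYZ le_rfl γ p hφ) (fun φ hφ hφ' => ?_) fun φ hφ => ?_
  · obtain ⟨ψ, hψ, hb⟩ := mem_cobounds.1 hφ'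
    have h1 : ψ ∈ cocycles R x W ρ Z Y γ (!p) := by
      refine mem_cocycles.2 ⟨hψ, ?_⟩
      have h2 := sub_mem (show φ ∈ extOf (Subtype R) Y from hφ.1.1.1) (extOf_mono hBY hb)
      rwa [LinearMap.id_apply, sub_sub_cancel] at h2
    obtain ⟨χ, hχ, hy⟩ := mem_cobounds.1 (ha _ h1)
    refine mem_cobounds.2 ⟨ψ - dCE R ρ χ,
      mem_cochains_of (sub_mem hψ (dCE_mem_cochains' h hZ.stab hχ)) hy, ?_⟩
    rwa [map_sub, dCE_dCE hR h, sub_zero]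
  · obtain ⟨ψ, hψ, hy⟩ := mem_cobounds.1 (ha p (cocycles_mono le_rfl hBY γ p hφ))
    refine ⟨φ - dCE R ρ ψ, mem_cocycles.2
      ⟨mem_cochains_of (sub_mem hφ.1 (dCE_mem_cochains' h hZ.stab hψ)) hy, ?_⟩, ?_⟩
    · rw [map_sub, dCE_dCE hR h, sub_zero]
      exact hφ.2
    · rw [LinearMap.id_apply, sub_sub_cancel]
      exact mem_cobounds.2 ⟨ψ, hψ, by rw [sub_self]; exact zero_mem _⟩

theorem acyc_iSup (Y : ℕ → Submodule ℂ M) (B : Submodule ℂ M) (hY : Monotone Y) (γ : H38.G)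
    (ha : ∀ m, Acyc R x W ρ (Y m) B γ) : Acyc R x W ρ (⨆ m, Y m) B γ := by
  intro p φ hφ
  have h1 : ∀ S, ∃ m, φ S ∈ Y m := fun S =>
    (Submodule.mem_iSup_of_directed Y hY.directed_le).1 (mem_extOf.1 hφ.1.1.1 S)
  choose m hm using h1
  have h2 : φ ∈ extOf (Subtype R) (Y (univ.sup m)) :=
    mem_extOf.2 fun S => hY (le_sup (f := m) (mem_univ S)) (hm S)
  exact cobounds_mono (le_iSup Y _) le_rfl γ p
    (ha _ p (mem_cocycles.2 ⟨mem_cochains_of hφ.1 h2, hφ.2⟩))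

theorem euler_CE (hR : IsRoots R) (h : IsRep R x W ρ) {Z B : Submodule ℂ M}
    (hZ : IsSub R W ρ Z) (hB : IsSub R W ρ B) (γ : H38.G)
    (hf : ∀ γ', FiniteDimensional ℂ (Qt W Z B γ')) :
    (∀ p, FiniteDimensional ℂ (Hu R x W ρ Z B γ p)) ∧
      (finrank ℂ (Hu R x W ρ Z B γ false) : ℤ) - finrank ℂ (Hu R x W ρ Z B γ true) =
        ∑ S : Finset (Subtype R), (-1) ^ S.card *
          (finrank ℂ (Qt W Z B (γ - ∑ r ∈ S, (x r.1.2 - x r.1.1))) : ℤ) := by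
  have h1 := euler_poincare (dCE R ρ) (cochains R x W Z γ) (extOf (Subtype R) B)
    (fun b hb => dCE_mem_extOf hB.stab hb)
    (fun p y hy => ⟨_, dCE_mem_cochains' h hZ.stab hy, by rw [sub_self]; exact zero_mem _⟩)
    (fun p y _ => by rw [dCE_dCE hR h]; exact zero_mem _)
    (fun p => ext_quot_finite _ W Z B γ hf p)
  exact ⟨h1.1, h1.2.trans (ext_quot_euler _ W Z B γ hf)⟩

section Map

variable {M' : Type} [AddCommGroup M'] [Module ℂ M'] {W' : H38.G → Submodule ℂ M'}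
  {ρ' : V × V → M' →ₗ[ℂ] M'}

theorem homog_split (ψ : M' →ₗ[ℂ] M) (κ : H38.G) (hψ : ∀ γ, ∀ m ∈ W' γ, ψ m ∈ W (γ + κ))
    (Z' : Submodule ℂ M') (γ : H38.G) :
    (⨆ γ', Z' ⊓ W' γ') ≤ (Z' ⊓ W' γ) ⊔ (⨆ δ, ⨆ _ : δ ≠ γ + κ, W δ).comap ψ := by
  refine iSup_le fun γ' => ?_
  by_cases h : γ' = γ
  · rw [h]; exact le_sup_left
  · refine le_trans (fun m hm => ?_) le_sup_right
    have h1 : γ' + κ ≠ γ + κ := fun h2 => h (add_right_cancel h2)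
    exact (le_iSup₂ (f := fun δ (_ : δ ≠ γ + κ) => W δ) _ h1) (hψ _ _ hm.2)

theorem homog_lift (hi : iSupIndep W) {Z B : Submodule ℂ M} {Z' : Submodule ℂ M'}
    (ψ : M' →ₗ[ℂ] M) (κ : H38.G) (hψ : ∀ γ, ∀ m ∈ W' γ, ψ m ∈ W (γ + κ))
    (hB : B ≤ ⨆ γ, B ⊓ W γ) (hZ' : Z' ≤ ⨆ γ, Z' ⊓ W' γ) (hs : Z ≤ Z'.map ψ ⊔ B) (γ : H38.G)
    {z : M} (hz : z ∈ Z) (hw : z ∈ W (γ + κ)) : ∃ z' ∈ Z' ⊓ W' γ, z - ψ z' ∈ B := by
  obtain ⟨_, ⟨z0, hz0, rfl⟩, b, hb, rfl⟩ := Submodule.mem_sup.1 (hs hz)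
  obtain ⟨z', hz', u, hu, rfl⟩ := Submodule.mem_sup.1 (homog_split ψ κ hψ Z' γ (hZ' hz0))
  obtain ⟨b', hb', u', hu', rfl⟩ := Submodule.mem_sup.1
    (homog_split (W := W) LinearMap.id 0 (fun γ m hm => by rwa [add_zero]) B (γ + κ) (hB hb))
  rw [add_zero] at hu'
  have h1 : ψ u + u' ∈ W (γ + κ) := by
    have h2 := sub_mem (sub_mem hw (hψ _ _ hz'.2)) hb'.2
    have h3 : ψ (z' + u) + (b' + u') - ψ z' - b' = ψ u + u' := by rw [map_add]; abel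
    rwa [h3] at h2
  have h2 : ψ u + u' = 0 := (Submodule.disjoint_def.1 (hi (γ + κ))) _ h1 (add_mem hu hu')
  refine ⟨z', hz', ?_⟩
  have h3 : ψ (z' + u) + (b' + u') - ψ z' = b' + (ψ u + u') := by rw [map_add]; abel
  rw [h3, h2, add_zero]
  exact hb'.1

theorem compLeft_dCE_sub {B : Submodule ℂ M} {Z' : Submodule ℂ M'} (ψ : M' →ₗ[ℂ] M)
    (hc : ∀ r, R r → ∀ m ∈ Z', ψ (ρ' r m) - ρ r (ψ m) ∈ B) {φ : Finset (Subtype R) → M'}
    (hφ : φ ∈ extOf (Subtype R) Z') :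
    ψ.compLeft _ (dCE R ρ' φ) - dCE R ρ (ψ.compLeft _ φ) ∈ extOf (Subtype R) B := by
  rw [dCE_apply, dCE_apply, map_sub]
  have h1 : ψ.compLeft (Finset (Subtype R))
      (∑ r : Subtype R, ∑ r' : Subtype R, ∑ r'' : Subtype R,
        if r.1.2 = r'.1.1 ∧ r''.1 = (r.1.1, r'.1.2) then wedge r (wedge r' (contr r'' φ))
        else 0) = ∑ r : Subtype R, ∑ r' : Subtype R, ∑ r'' : Subtype R,
        if r.1.2 = r'.1.1 ∧ r''.1 = (r.1.1, r'.1.2) then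
          wedge r (wedge r' (contr r'' (ψ.compLeft _ φ))) else 0 := by
    simp only [map_sum]
    refine sum_congr rfl fun r _ => sum_congr rfl fun r' _ => sum_congr rfl fun t _ => ?_
    split_ifs
    · rw [compLeft_wedge_apply, compLeft_wedge_apply, compLeft_contr_apply]
    · rw [map_zero]
  rw [h1, sub_sub_sub_cancel_right, map_sum, ← sum_sub_distrib]
  refine sum_mem fun r _ => ?_
  rw [compLeft_wedge_apply, ← map_sub]
  exact wedge_mem_extOf _ (mem_extOf.2 fun S => hc r r.2 _ (mem_extOf.1 hφ S))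

theorem equiv_of_map (h : IsRep R x W ρ) {Z B : Submodule ℂ M}
    {Z' B' : Submodule ℂ M'} (ψ : M' →ₗ[ℂ] M) (κ : H38.G) (hB : IsSub R W ρ B)
    (hZ' : IsSub R W' ρ' Z')
    (hψ : ∀ γ, ∀ m ∈ W' γ, ψ m ∈ W (γ + κ))
    (hc : ∀ r, R r → ∀ m ∈ Z', ψ (ρ' r m) - ρ r (ψ m) ∈ B) (h1 : Z'.map ψ ≤ Z)
    (h2 : B'.map ψ ≤ B) (h3 : Z ≤ Z'.map ψ ⊔ B) (h4 : Z' ⊓ B.comap ψ ≤ B') (γ : H38.G)
    (p : Bool) : Nonempty (Hu R x W' ρ' Z' B' γ p ≃ₗ[ℂ] Hu R x W ρ Z B (γ + κ) p) := by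
  set f := ψ.compLeft (Finset (Subtype R)) with hf
  have hfB : ∀ φ ∈ extOf (Subtype R) B', f φ ∈ extOf (Subtype R) B := fun φ hφ =>
    mem_extOf.2 fun S => h2 (Submodule.mem_map_of_mem (mem_extOf.1 hφ S))
  have hfB' : ∀ φ ∈ extOf (Subtype R) Z', f φ ∈ extOf (Subtype R) B → φ ∈ extOf (Subtype R) B' :=
    fun φ hφ hφ' => mem_extOf.2 fun S => h4 ⟨mem_extOf.1 hφ S, mem_extOf.1 hφ' S⟩
  have hfC : ∀ q, ∀ φ ∈ cochains R x W' Z' γ q, f φ ∈ cochains R x W Z (γ + κ) q := by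
    intro q φ hφ
    refine ⟨⟨mem_extOf.2 fun S => h1 (Submodule.mem_map_of_mem (mem_extOf.1 hφ.1.1 S)),
      mem_extW.2 fun S => ?_⟩, compLeft_mem_par ψ hφ.2⟩
    rw [add_sub_right_comm]
    exact hψ _ _ (mem_extW.1 hφ.1.2 S)
  have hlift : ∀ q, ∀ θ ∈ cochains R x W Z (γ + κ) q, ∃ θ' ∈ cochains R x W' Z' γ q,
      θ - f θ' ∈ extOf (Subtype R) B := by
    intro q θ hθ
    have h5 : ∀ S : Finset (Subtype R), ∃ z' ∈ Z' ⊓ W' (γ - ∑ r ∈ S, (x r.1.2 - x r.1.1)),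
        θ S - ψ z' ∈ B ∧ (θ S = 0 → z' = 0) := by
      intro S
      by_cases h6 : θ S = 0
      · exact ⟨0, zero_mem _, by rw [h6, map_zero, sub_zero]; exact zero_mem _, fun _ => rfl⟩
      · have h7 := mem_extW.1 hθ.1.2 S
        rw [add_sub_right_comm] at h7
        obtain ⟨z', hz', h8⟩ :=
          homog_lift h.indep ψ κ hψ hB.homog hZ'.homog h3 _ (mem_extOf.1 hθ.1.1 S) h7
        exact ⟨z', hz', h8, fun h9 => absurd h9 h6⟩
    choose z hz hz1 hz2 using h5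
    exact ⟨z, ⟨⟨mem_extOf.2 fun S => (hz S).1, mem_extW.2 fun S => (hz S).2⟩,
      mem_par.2 fun S hS => hz2 S (mem_par.1 hθ.2 S hS)⟩, mem_extOf.2 hz1⟩
  have hcom : ∀ φ ∈ extOf (Subtype R) Z',
      f (dCE R ρ' φ) - dCE R ρ (f φ) ∈ extOf (Subtype R) B := fun φ hφ =>
    compLeft_dCE_sub ψ hc hφ
  refine subquot_equiv f _ _ _ _ (fun φ hφ => mem_cocycles.2 ⟨hfC _ _ hφ.1, ?_⟩)
    (fun φ _ hφ => ?_) (fun φ hφ hφ' => ?_) fun θ hθ => ?_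
  · have h5 := sub_mem (hfB _ hφ.2) (hcom φ hφ.1.1.1)
    rwa [sub_sub_cancel] at h5
  · obtain ⟨χ, hχ, hb⟩ := mem_cobounds.1 hφ
    refine mem_cobounds.2 ⟨f χ, hfC _ _ hχ, ?_⟩
    have h5 := add_mem (hfB _ hb) (hcom χ hχ.1.1)
    rwa [map_sub, sub_add_sub_cancel] at h5
  · obtain ⟨θ, hθ, hb⟩ := mem_cobounds.1 hφ'
    obtain ⟨θ', hθ', hb'⟩ := hlift _ θ hθ
    refine mem_cobounds.2 ⟨θ', hθ', hfB' _
      (sub_mem hφ.1.1.1 (dCE_mem_extOf hZ'.stab hθ'.1.1)) ?_⟩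
    have h5 := sub_mem (add_mem hb (dCE_mem_extOf hB.stab hb')) (hcom θ' hθ'.1.1)
    rwa [map_sub, sub_add_sub_cancel, sub_sub_sub_cancel_right, ← map_sub] at h5
  · obtain ⟨θ', hθ', hb⟩ := hlift _ θ hθ.1
    refine ⟨θ', mem_cocycles.2 ⟨hθ', hfB' _ (dCE_mem_extOf hZ'.stab hθ'.1.1) ?_⟩,
      Submodule.mem_sup_right hb⟩
    have h5 := add_mem (hcom θ' hθ'.1.1) (sub_mem hθ.2 (dCE_mem_extOf hB.stab hb))
    rwa [map_sub, sub_sub_cancel, sub_add_cancel] at h5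

end Map

theorem ce : CEStmt := by
  intro V _ _ R _ x hR M _ _ W ρ h
  refine ⟨dCE_sq hR h, fun Z hZ γ p φ hφ => dCE_mem_cochains h hZ.stab hφ, acyc_iff,
    fun Z Y B hZ _ _ hBY hYZ γ => ⟨equiv_of_acyc_sub hR h hZ hBY hYZ γ,
      equiv_of_acyc_quot hR h hZ hBY hYZ γ⟩, acyc_iSup,
    fun Z B hZ hB _ γ hf => euler_CE hR h hZ hB γ hf, ?_⟩
  intro M' _ _ W' ρ' _ Z B Z' B' ψ κ _ hB _ hZ' _ _ hψ hc h1 h2 h3 h4 γ p
  exact equiv_of_map h ψ κ hB hZ' hψ hc h1 h2 h3 h4 γ p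

end Pool.Agent.MP_8be872_ag.H29
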