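import Pool.Agent.MP_8be872_ag.H56.Geo

/-! Canonical anticommutation relations for `wedge` and `contr`. -/

namespace Pool.Agent.MP_8be872_ag.H29

open Finset H56

variable {O M : Type} [Fintype O] [DecidableEq O] [AddCommGroup M] [Module ℂ M]

/-- The sign of moving `o'` past `o`. -/
noncomputable def eps (o' o : O) : ℂ :=
  if Fintype.equivFin O o' < Fintype.equivFin O o then -1 else 1

omit [DecidableEq O] in
theorem eps_self (o : O) : eps o o = 1 := by simp [eps]

omit [DecidableEq O] in
theorem eps_swap {o o' : O} (h : o ≠ o') : eps o o' = -eps o' o := by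
  have h' : Fintype.equivFin O o ≠ Fintype.equivFin O o' := fun e => h ((Fintype.equivFin O).injective e)
  unfold eps
  rcases lt_or_gt_of_ne h' with h1 | h1
  · rw [if_pos h1, if_neg (not_lt.2 h1.le)]
  · rw [if_neg (not_lt.2 h1.le), if_pos h1, neg_neg]

omit [DecidableEq O] in
theorem eps_mul_self (o o' : O) : eps o o' * eps o o' = 1 := by
  unfold eps; split_ifs <;> simp

omit [DecidableEq O] in
theorem sgn_mul_self (o : O) (S : Finset O) : sgn o S * sgn o S = 1 := by
  unfold sgn; rw [← mul_pow]; simp

theorem sgn_insert (o o' : O) {S : Finset O} (h : o' ∉ S) :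
    sgn o (insert o' S) = eps o' o * sgn o S := by
  unfold sgn eps
  rw [filter_insert]
  split_ifs with h1
  · rw [card_insert_of_notMem (fun h2 => h (mem_filter.1 h2).1), pow_succ]; ring
  · rw [one_mul]

theorem sgn_erase (o o' : O) {S : Finset O} (h : o' ∈ S) :
    sgn o (S.erase o') = eps o' o * sgn o S := by
  have h1 := sgn_insert o o' (notMem_erase o' S)
  rw [insert_erase h] at h1
  rw [h1, ← mul_assoc, eps_mul_self, one_mul]

theorem wedge_apply (o : O) (φ : Finset O → M) (S : Finset O) :
    wedge o φ S = if o ∈ S then sgn o S • φ (S.erase o) else 0 := by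
  unfold wedge
  rw [LinearMap.pi_apply]
  split_ifs <;> rfl

theorem contr_apply (o : O) (φ : Finset O → M) (S : Finset O) :
    contr o φ S = if o ∈ S then 0 else sgn o S • φ (insert o S) := by
  unfold contr
  rw [LinearMap.pi_apply]
  split_ifs <;> rfl

theorem wedge_wedge_self (o : O) (φ : Finset O → M) : wedge o (wedge o φ) = 0 := by
  funext S
  rw [wedge_apply, wedge_apply, if_neg (notMem_erase o S)]
  simp

theorem contr_contr_self (o : O) (φ : Finset O → M) : contr o (contr o φ) = 0 := by
  funext S
  rw [contr_apply, contr_apply, if_pos (mem_insert_self o S)]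
  simp

theorem wedge_wedge_apply (o o' : O) (φ : Finset O → M) :
    wedge o (wedge o' φ) = -wedge o' (wedge o φ) := by
  by_cases h : o = o'
  · subst h; rw [wedge_wedge_self, neg_zero]
  funext S
  simp only [Pi.neg_apply, wedge_apply, mem_erase]
  by_cases h1 : o ∈ S <;> by_cases h2 : o' ∈ S
  · simp only [h1, h2, h, Ne.symm h, ne_eq, not_false_eq_true, and_self, if_true]
    rw [sgn_erase o' o h1, sgn_erase o o' h2, erase_right_comm, eps_swap h, smul_smul, smul_smul,
      ← neg_smul]
    congr 1; ring
  · simp [h1, h2]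
  · simp [h1, h2]
  · simp [h1, h2]

theorem contr_contr_apply (o o' : O) (φ : Finset O → M) :
    contr o (contr o' φ) = -contr o' (contr o φ) := by
  by_cases h : o = o'
  · subst h; rw [contr_contr_self, neg_zero]
  funext S
  simp only [Pi.neg_apply, contr_apply, mem_insert]
  by_cases h1 : o ∈ S <;> by_cases h2 : o' ∈ S
  · simp [h1, h2]
  · simp [h1, h2]
  · simp [h1, h2]
  · simp only [h1, h2, h, Ne.symm h, or_self, if_false]
    rw [sgn_insert o' o h1, sgn_insert o o' h2, insert_comm, eps_swap h, smul_smul, smul_smul,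
      ← neg_smul]
    congr 1; ring

theorem contr_wedge_apply (o o' : O) (φ : Finset O → M) :
    contr o (wedge o' φ) = (if o = o' then φ else 0) - wedge o' (contr o φ) := by
  funext S
  by_cases h : o = o'
  · subst h
    simp only [if_true, Pi.sub_apply, contr_apply, wedge_apply, mem_insert_self, notMem_erase,
      if_false]
    by_cases h1 : o ∈ S
    · simp only [h1, if_true]
      rw [insert_erase h1, sgn_erase o o h1, eps_self, one_mul, smul_smul, sgn_mul_self, one_smul,
        sub_self]
    · simp only [h1, if_false]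
      rw [erase_insert h1, sgn_insert o o h1, eps_self, one_mul, smul_smul, sgn_mul_self, one_smul,
        sub_zero]
  · simp only [h, if_false, Pi.sub_apply, contr_apply, wedge_apply, mem_insert, mem_erase,
      Pi.zero_apply, zero_sub]
    by_cases h1 : o ∈ S <;> by_cases h2 : o' ∈ S
    · simp [h1, h2, h]
    · simp [h1, h2]
    · simp only [h1, h2, h, ne_eq, not_false_eq_true, or_true, if_true, and_false, if_false]
      rw [sgn_insert o' o h1, sgn_erase o o' h2, erase_insert_of_ne h, eps_swap h, smul_smul,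
        smul_smul, ← neg_smul]
      congr 1; ring
    · simp [h1, h2, Ne.symm h]

theorem wedge_wedge (o o' : O) :
    (wedge o ∘ₗ wedge o' : (Finset O → M) →ₗ[ℂ] _) = -(wedge o' ∘ₗ wedge o) :=
  LinearMap.ext fun φ => wedge_wedge_apply o o' φ

theorem contr_contr (o o' : O) :
    (contr o ∘ₗ contr o' : (Finset O → M) →ₗ[ℂ] _) = -(contr o' ∘ₗ contr o) :=
  LinearMap.ext fun φ => contr_contr_apply o o' φ

theorem contr_wedge (o o' : O) :
    (contr o ∘ₗ wedge o' + wedge o' ∘ₗ contr o : (Finset O → M) →ₗ[ℂ] _) =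
      if o = o' then LinearMap.id else 0 := by
  refine LinearMap.ext fun φ => ?_
  rw [LinearMap.add_apply, LinearMap.comp_apply, LinearMap.comp_apply, contr_wedge_apply]
  split_ifs <;> simp

variable {M' : Type} [AddCommGroup M'] [Module ℂ M']

theorem compLeft_wedge_apply (f : M →ₗ[ℂ] M') (o : O) (φ : Finset O → M) :
    f.compLeft (Finset O) (wedge o φ) = wedge o (f.compLeft (Finset O) φ) := by
  funext S
  simp only [LinearMap.compLeft_apply, Function.comp_apply, wedge_apply]
  split_ifs <;> simp

theorem compLeft_contr_apply (f : M →ₗ[ℂ] M') (o : O) (φ : Finset O → M) :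
    f.compLeft (Finset O) (contr o φ) = contr o (f.compLeft (Finset O) φ) := by
  funext S
  simp only [LinearMap.compLeft_apply, Function.comp_apply, contr_apply]
  split_ifs <;> simp

theorem compLeft_wedge (f : M →ₗ[ℂ] M') (o : O) :
    f.compLeft (Finset O) ∘ₗ wedge o = wedge o ∘ₗ f.compLeft (Finset O) :=
  LinearMap.ext fun φ => compLeft_wedge_apply f o φ

theorem compLeft_contr (f : M →ₗ[ℂ] M') (o : O) :
    f.compLeft (Finset O) ∘ₗ contr o = contr o ∘ₗ f.compLeft (Finset O) :=
  LinearMap.ext fun φ => compLeft_contr_apply f o φ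

/-! ### The same relations in the endomorphism ring -/

theorem wedge_mul_wedge (o o' : O) :
    (wedge o * wedge o' : Module.End ℂ (Finset O → M)) = -(wedge o' * wedge o) :=
  wedge_wedge o o'

theorem contr_mul_contr (o o' : O) :
    (contr o * contr o' : Module.End ℂ (Finset O → M)) = -(contr o' * contr o) :=
  contr_contr o o'

theorem contr_mul_wedge (o o' : O) :
    (contr o * wedge o' : Module.End ℂ (Finset O → M)) =
      (if o = o' then 1 else 0) - wedge o' * contr o :=
  eq_sub_of_add_eq (contr_wedge o o')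

theorem compLeft_mul_wedge (f : M →ₗ[ℂ] M) (o : O) :
    (f.compLeft (Finset O) * wedge o : Module.End ℂ (Finset O → M)) =
      wedge o * f.compLeft (Finset O) := compLeft_wedge f o

theorem compLeft_mul_contr (f : M →ₗ[ℂ] M) (o : O) :
    (f.compLeft (Finset O) * contr o : Module.End ℂ (Finset O → M)) =
      contr o * f.compLeft (Finset O) := compLeft_contr f o

/-! ### Membership lemmas -/

omit [Fintype O] [DecidableEq O] in
theorem mem_extOf {Z : Submodule ℂ M} {φ : Finset O → M} : φ ∈ extOf O Z ↔ ∀ S, φ S ∈ Z := by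
  simp [extOf, Submodule.mem_pi]

omit [Fintype O] [DecidableEq O] in
theorem mem_extW {c : O → H38.G} {W : H38.G → Submodule ℂ M} {γ : H38.G} {φ : Finset O → M} :
    φ ∈ extW c W γ ↔ ∀ S, φ S ∈ W (γ - ∑ o ∈ S, c o) := by
  simp [extW, Submodule.mem_pi]

omit [Fintype O] [DecidableEq O] in
theorem mem_par {p : Bool} {φ : Finset O → M} :
    φ ∈ par O M p ↔ ∀ S : Finset O, decide (Odd S.card) ≠ p → φ S = 0 := by
  simp [par, Submodule.mem_pi]

theorem wedge_mem_extOf {Z : Submodule ℂ M} (o : O) {φ : Finset O → M} (h : φ ∈ extOf O Z) :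
    wedge o φ ∈ extOf O Z := by
  rw [mem_extOf] at h ⊢
  intro S
  rw [wedge_apply]
  split_ifs
  · exact Z.smul_mem _ (h _)
  · exact Z.zero_mem

theorem contr_mem_extOf {Z : Submodule ℂ M} (o : O) {φ : Finset O → M} (h : φ ∈ extOf O Z) :
    contr o φ ∈ extOf O Z := by
  rw [mem_extOf] at h ⊢
  intro S
  rw [contr_apply]
  split_ifs
  · exact Z.zero_mem
  · exact Z.smul_mem _ (h _)

theorem wedge_mem_extW {c : O → H38.G} {W : H38.G → Submodule ℂ M} {γ : H38.G} (o : O)
    {φ : Finset O → M} (h : φ ∈ extW c W γ) : wedge o φ ∈ extW c W (γ + c o) := by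
  rw [mem_extW] at h ⊢
  intro S
  rw [wedge_apply]
  split_ifs with h1
  · refine (W _).smul_mem _ ?_
    have h2 := h (S.erase o)
    have h3 : γ + c o - ∑ o ∈ S, c o = γ - ∑ o ∈ S.erase o, c o := by
      rw [← add_sum_erase S c h1]; abel
    rw [h3]; exact h2
  · exact (W _).zero_mem

theorem contr_mem_extW {c : O → H38.G} {W : H38.G → Submodule ℂ M} {γ : H38.G} (o : O)
    {φ : Finset O → M} (h : φ ∈ extW c W γ) : contr o φ ∈ extW c W (γ - c o) := by
  rw [mem_extW] at h ⊢
  intro S
  rw [contr_apply]
  split_ifs with h1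
  · exact (W _).zero_mem
  · refine (W _).smul_mem _ ?_
    have h2 := h (insert o S)
    have h3 : γ - c o - ∑ o ∈ S, c o = γ - ∑ o ∈ insert o S, c o := by
      rw [sum_insert h1]; abel
    rw [h3]; exact h2

theorem decide_odd_succ (n : ℕ) : decide (Odd (n + 1)) = !decide (Odd n) := by
  rw [← decide_not]
  exact decide_eq_decide.2 Nat.odd_add_one

theorem wedge_mem_par {p : Bool} (o : O) {φ : Finset O → M} (h : φ ∈ par O M p) :
    wedge o φ ∈ par O M (!p) := by
  rw [mem_par] at h ⊢
  intro S hS
  rw [wedge_apply]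
  split_ifs with h1
  · rw [h (S.erase o), smul_zero]
    have h2 : S.card = (S.erase o).card + 1 := (card_erase_add_one h1).symm
    rw [h2] at hS
    intro h3
    apply hS
    rw [← h3, decide_odd_succ]
  · rfl

theorem contr_mem_par {p : Bool} (o : O) {φ : Finset O → M} (h : φ ∈ par O M p) :
    contr o φ ∈ par O M (!p) := by
  rw [mem_par] at h ⊢
  intro S hS
  rw [contr_apply]
  split_ifs with h1
  · rfl
  · rw [h (insert o S), smul_zero]
    rw [card_insert_of_notMem h1]
    intro h3
    apply hS
    rw [← h3, decide_odd_succ, Bool.not_not]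

omit [Fintype O] [DecidableEq O] in
theorem compLeft_mem_par {p : Bool} (f : M →ₗ[ℂ] M') {φ : Finset O → M} (h : φ ∈ par O M p) :
    f.compLeft (Finset O) φ ∈ par O M' p := by
  rw [mem_par] at h ⊢
  intro S hS
  simp [h S hS]

end Pool.Agent.MP_8be872_ag.H29
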