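import Pool.Agent.MP_8be872_ag.H63.SpecA
import Pool.Agent.MP_8be872_ag.H63.LocA
import Pool.Agent.MP_8be872_ag.H80.ElimA

/-! Elimination of generators that cancel in pairs. -/

set_option linter.unusedSectionVars false

namespace Pool.Agent.MP_8be872_ag.H29

open Finset H38 H56 H63 MvPolynomial
open scoped Matrix

/-- A class-preserving inverse of a bijective block. -/
theorem exists_inv {G C : Type} [Fintype G] [DecidableEq G] (d : Matrix G G ℂ) (A B : G → Prop)
    (κ κ' : G → C) (hκ : ∀ a b, d a b ≠ 0 → κ' a = κ b)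
    (inj : ∀ y : G → ℂ, (∀ g, ¬ B g → y g = 0) → (∀ g, A g → (d *ᵥ y) g = 0) → y = 0)
    (surj : ∀ t : G → ℂ, ∃ y : G → ℂ, (∀ g, ¬ B g → y g = 0) ∧ ∀ g, A g → (d *ᵥ y) g = t g) :
    ∃ h : Matrix G G ℂ, (∀ b a, h b a ≠ 0 → B b ∧ A a ∧ κ' a = κ b) ∧
      (∀ a, A a → (d * h) a = Pi.single a 1) ∧
      ∀ b b', B b' → (h * d) b b' = (Pi.single b 1 : G → ℂ) b' := by
  classical
  choose y hy hy' using surj
  let h : Matrix G G ℂ := fun b a => if A a ∧ κ' a = κ b then y (Pi.single a 1) b else 0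
  have h1 : ∀ b a, h b a ≠ 0 → B b ∧ A a ∧ κ' a = κ b := fun b a hb =>
    ⟨of_not_not fun e => (ite_ne_right_iff.1 hb).2 (hy _ b e), (ite_ne_right_iff.1 hb).1⟩
  have h2 : ∀ a, A a → (d * h) a = Pi.single a 1 := fun a ha => by
    funext a'
    by_cases e : A a' ∧ κ' a' = κ' a
    · rw [Pi.single_apply, ← if_congr eq_comm rfl rfl, ← Pi.single_apply,
        ← hy' (Pi.single a' 1) a ha]
      refine sum_congr rfl fun b _ => ?_
      change d a b * _ = d a b * _
      by_cases e' : d a b = 0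
      · rw [e', zero_mul, zero_mul]
      · exact congrArg _ (if_pos ⟨e.1, e.2.trans (hκ a b e')⟩)
    · rw [Pi.single_eq_of_ne (by rintro rfl; exact e ⟨ha, rfl⟩)]
      refine sum_eq_zero fun b _ => of_not_not fun e' => e ⟨(h1 _ _ (right_ne_zero_of_mul e')).2.1,
        (h1 _ _ (right_ne_zero_of_mul e')).2.2.trans (hκ a b (left_ne_zero_of_mul e')).symm⟩
  refine ⟨h, h1, h2, fun b b' hb' => ?_⟩
  have h3 := inj (fun x => (h * d) x b' - (Pi.single b' 1 : G → ℂ) x) (fun g hg => ?_) fun a ha => ?_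
  · rw [Pi.single_apply, ← if_congr eq_comm rfl rfl, ← Pi.single_apply]
    exact sub_eq_zero.1 (congrFun h3 b)
  · rw [Pi.single_eq_of_ne (by rintro rfl; exact hg hb'), sub_zero]
    exact sum_eq_zero fun a _ => of_not_not fun e => hg (h1 _ _ (left_ne_zero_of_mul e)).1
  · have e : (d * (h * d)) a b' = d a b' := by
      rw [← Matrix.mul_assoc, Matrix.mul_apply, h2 a ha]
      simp [Pi.single_apply]
    simp only [Matrix.mulVec, dotProduct, mul_sub, sum_sub_distrib]
    rw [← Matrix.mul_apply, e]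
    simp [Pi.single_apply]

section Sup

variable {E O : Type} [Fintype E] [Fintype O] [DecidableEq E] [DecidableEq O]
  {P : (E ⊕ O → ℕ) → Prop}

theorem lin_coeff {m : Module.End ℂ (Sp E O)} (hm : m ∈ words P) {g : E ⊕ O}
    (h : coeff 0 (dr g (m one) ∅) ≠ 0) : P (Pi.single g 1) := by
  have := mem_mono.1 (dr_mem (P' := fun μ => P (μ + Pi.single g 1)) g (words_one_mem hm)
    fun _ a => a) ∅ 0 h
  rwa [ex_zero, zero_add] at this

theorem of_lin_mem {u : E ⊕ O → ℂ} (hm : (lin u : Module.End ℂ (Sp E O)) ∈ words P) {g : E ⊕ O}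
    (h : u g ≠ 0) : P (Pi.single g 1) := by
  refine lin_coeff hm ?_
  have e : ∀ g', dr g (gn g' (one : Sp E O)) = if g = g' then one else 0 := fun g' => by
    rw [← Module.End.mul_apply, dr_mul_gn, LinearMap.add_apply, LinearMap.smul_apply,
      Module.End.mul_apply, dr_one, map_zero, smul_zero, zero_add]
    split_ifs <;> rfl
  rw [lin, LinearMap.sum_apply, map_sum]
  simp only [LinearMap.smul_apply, map_smul, e, smul_ite, smul_zero, sum_ite_eq, mem_univ, if_true]
  simpa [one] using h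

theorem has_le {A : E ⊕ O → Prop} {C : Submodule ℂ (Sp E O)} (h : ∀ g, A g → ∀ y, gn g y ∈ C) :
    mono (has A) ≤ C := by
  refine mono_le_of_bas fun S m ⟨g, hg, hm⟩ => ?_
  have e := euler_apply (Pi.single g 1) (a := (ex S m g : ℂ)) (bas_mem (S := S) (m := m) (by
    simp [ws, Pi.single_apply]))
  refine (C.smul_mem_iff (Nat.cast_ne_zero.2 hm : (ex S m g : ℂ) ≠ 0)).1 ?_
  rw [← e, vf, LinearMap.sum_apply]
  refine C.sum_mem fun g' _ => ?_
  rw [Module.End.mul_apply, LinearMap.smul_apply]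
  by_cases e' : g' = g
  · exact C.smul_mem _ (h _ (e' ▸ hg) _)
  · rw [Pi.single_eq_of_ne e', zero_smul]
    exact C.zero_mem

/-- A monomial of positive weight has a factor of positive weight. -/
theorem has_pos {Γ : Type} [AddCommGroup Γ] (l : Γ →+ ℤ) {c : E ⊕ O → Γ} {μ : E ⊕ O → ℕ}
    (h : 0 < l (ws c μ)) : ∃ g, μ g ≠ 0 ∧ 0 < l (c g) := by
  by_contra hc
  push Not at hc
  refine h.not_ge ?_
  rw [ws, map_sum]
  refine sum_nonpos fun g _ => ?_
  rw [map_nsmul]
  by_cases e : μ g = 0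
  · rw [e, zero_smul]
  · exact nsmul_nonpos (hc g e) _

end Sup

variable {E O J Γ : Type} [Fintype E] [Fintype O] [Fintype J] [DecidableEq E] [DecidableEq O]
  [DecidableEq J] [AddCommGroup Γ] {Al : Gn E O J → Prop} {c : Gn E O J → Γ}
  {δ : Gn E O J → Op E O J} {f : J → MvPolynomial (E ⊕ J) ℂ}

theorem elim_pair (hE : ElimAt E O J Γ) (hG : Good Al c δ 0 f) (j₀ : J)
    {K A B Bg L : Gn E O J → Prop} (l l₀ : Γ →+ ℤ)
    (hK : ∀ g, K g → Al g ∧ g.isRight = false ∧ l (c g) < 0)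
    (hl : ∀ g, Al g → ¬ K g → 0 < l (c g)) (hc : vf δ * mul (f j₀) = mul (f j₀) * vf δ)
    (d : Matrix (Gn E O J) (Gn E O J) ℂ)
    (hd : ∀ g g', d g g' ≠ 0 → Al g ∧ Al g' ∧ c g' = c g ∧ g'.isRight = !g.isRight)
    (lead : ∀ g, δ g - lin (d g) ∈ words fun μ => 2 ≤ ∑ g', μ g') (dd : d * d = 0)
    (hA : ∀ g, A g → ¬ K g ∧ ¬ B g) (hB : ∀ g, B g → ¬ K g)
    (hBg : ∀ g, Bg g ↔ A g ∨ B g ∨ K g) (hAl : ∀ g, Bg g → Al g)
    (st : ∀ g, Bg g → δ g ∈ words (has Bg)) (hL : ∀ g, L g ↔ Al g ∧ ¬ K g ∧ 0 < l₀ (c g))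
    (inj : ∀ y : Gn E O J → ℂ, (∀ g, ¬ B g → y g = 0) → (∀ g, A g → (d *ᵥ y) g = 0) → y = 0)
    (surj : ∀ t : Gn E O J → ℂ, ∃ y : Gn E O J → ℂ, (∀ g, ¬ B g → y g = 0) ∧
      ∀ g, A g → (d *ᵥ y) g = t g) (k : ℕ) (γ : Γ) :
    Acy (Dloc δ 0 f ∅) (fun p => ZZ Al c {j₀} ∅ γ p ⊓
      (mono (fun μ => k ≤ cnt L μ) ⊔ mono (has K)) ⊓ (rel f ⊔ mono (has Bg)))
      (rel f ⊔ mono (has K)) := by
  classical
  obtain ⟨h, h1, h2, h3⟩ := exists_inv d A B (fun g => (c g, g.isRight))
    (fun g => (c g, !g.isRight)) (fun a b e => Prod.ext (hd a b e).2.2.1.symm (hd a b e).2.2.2.symm)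
    inj surj
  have a1 : ∀ g, A g → Bg g := fun g e => (hBg g).2 (.inl e)
  have a2 : ∀ g, B g → Bg g := fun g e => (hBg g).2 (.inr (.inl e))
  have hs : ∀ g g', d g g' ≠ 0 ∨ h g g' ≠ 0 →
      Al g ∧ ¬ K g ∧ Al g' ∧ ¬ K g' ∧ c g' = c g ∧ g'.isRight = !g.isRight := by
    rintro g g' (e | e)
    · obtain ⟨b1, b2, b3, b4⟩ := hd g g' e
      have b5 : K g ↔ K g' := ⟨fun b => of_not_not fun b' => (hK g b).2.2.not_gt (b3 ▸ hl g' b2 b'),
        fun b => of_not_not fun b' => (hK g' b).2.2.not_gt (b3 ▸ hl g b1 b')⟩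
      have b6 : ¬ K g := fun b => by
        rw [(hK g b).2.1, (hK g' (b5.1 b)).2.1] at b4
        cases b4
      exact ⟨b1, b6, b2, b5.not.1 b6, b3, b4⟩
    · obtain ⟨b1, b2, b3⟩ := h1 g g' e
      refine ⟨hAl _ (a2 _ b1), hB _ b1, hAl _ (a1 _ b2), (hA _ b2).1, congrArg Prod.fst b3, ?_⟩
      rw [← show (!g'.isRight) = g.isRight from congrArg Prod.snd b3, Bool.not_not]
  have hh : h * h = 0 := by
    ext g g'
    exact sum_eq_zero fun z _ => of_not_not fun e =>
      (hA z (h1 _ _ (left_ne_zero_of_mul e)).2.1).2 (h1 _ _ (right_ne_zero_of_mul e)).1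
  have hdh : h * d * h = h := by
    ext g g'
    rw [Matrix.mul_apply, sum_congr rfl (g := fun z => (Pi.single g 1 : Gn E O J → ℂ) z * h z g')]
    · simp [Pi.single_apply]
    · intro z _
      by_cases e : h z g' = 0
      · rw [e, mul_zero, mul_zero]
      · rw [h3 g z (h1 _ _ e).1]
  have dBg : ∀ g g', Bg g → d g g' ≠ 0 → Bg g' := fun g g' hg e => by
    have b : (lin (d g) : Op E O J) ∈ words fun μ => has Bg μ ∨ 2 ≤ ∑ g', μ g' := by
      rw [← sub_sub_cancel (δ g) (lin (d g))]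
      exact sub_mem (words_le (fun _ => .inl) (st g hg)) (words_le (fun _ => .inr) (lead g))
    refine (of_lin_mem b e).elim has_single.1 fun b' => ?_
    simp [Pi.single_apply] at b'
  have hν : linI (h * d + d * h) ⊔ mono (has K) = mono (has Bg) := by
    refine le_antisymm (sup_le (iSup_le fun g => ?_)
      (mono_le fun μ ⟨g, b, b'⟩ => ⟨g, (hBg g).2 (.inr (.inr b)), b'⟩)) ?_
    · rintro _ ⟨y, rfl⟩
      refine words_apply_mem (P := has Bg) (P' := fun _ => True) (H80.lin_mem fun g' e => ?_)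
        (apiC_top y) fun _ _ b _ => has_add.2 (.inl b)
      refine has_single.2 (of_not_not fun b => e ?_)
      rw [Matrix.add_apply, Matrix.mul_apply, Matrix.mul_apply, sum_eq_zero, sum_eq_zero, add_zero]
      · exact fun z _ => of_not_not fun e => b (a1 _ (h1 _ _ (right_ne_zero_of_mul e)).2.1)
      · exact fun z _ => of_not_not fun e =>
          b (dBg _ _ (a1 _ (h1 _ _ (left_ne_zero_of_mul e)).2.1) (right_ne_zero_of_mul e))
    have b0 : ∀ g y, lin ((h * d + d * h) g) y ∈ linI (h * d + d * h) ⊔ mono (has K) := fun g y =>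
      Submodule.mem_sup_left (Submodule.mem_iSup_of_mem g ⟨y, rfl⟩)
    have b1 : ∀ g, A g ∨ K g → ∀ y, gn g y ∈ linI (h * d + d * h) ⊔ mono (has K) := by
      rintro g (b | b) y
      · have := b0 g y
        rwa [show (h * d + d * h) g = (h * d) g + (d * h) g from rfl, h2 g b,
          show (h * d) g = 0 from funext fun g' =>
          sum_eq_zero fun z _ => of_not_not fun e => (hA g b).2 (h1 _ _ (left_ne_zero_of_mul e)).1,
          zero_add, H80.lin_single] at this
      · exact Submodule.mem_sup_right (gn_mem g (apiC_top y) fun _ _ =>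
          has_add.2 (.inr (has_single.2 b)))
    refine has_le fun g hg y => ?_
    rcases (hBg g).1 hg with b | b | b
    · exact b1 g (.inl b) y
    · have e : gn g y = lin ((h * d + d * h) g) y - lin ((h * d + d * h) g - Pi.single g 1) y := by
        rw [eq_sub_iff_add_eq, ← LinearMap.add_apply, ← H80.lin_single, ← H80.lin_add,
          add_sub_cancel]
      rw [e]
      refine sub_mem (b0 g y) (has_le b1 (words_apply_mem (P := has fun g => A g ∨ K g)
        (P' := fun _ => True) (H80.lin_mem fun g' e => ?_) (apiC_top y) fun _ _ b _ =>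
          has_add.2 (.inl b)))
      refine has_single.2 (of_not_not fun b' => e ?_)
      have b2 : (d * h) g g' = 0 := sum_eq_zero fun z _ => of_not_not fun e =>
        b' (.inl (h1 _ _ (right_ne_zero_of_mul e)).2.1)
      rw [Pi.sub_apply, Matrix.add_apply, b2, add_zero, sub_eq_zero]
      by_cases b3 : B g'
      · exact h3 g g' b3
      · rw [Pi.single_eq_of_ne (by rintro rfl; exact b3 b)]
        refine sum_eq_zero fun z _ => of_not_not fun e => ?_
        have := (hBg g').1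
          (dBg _ _ (a1 _ (h1 _ _ (left_ne_zero_of_mul e)).2.1) (right_ne_zero_of_mul e))
        exact this.elim (fun x => b' (.inl x)) fun x => x.elim b3 fun x => b' (.inr x)
    · exact b1 g (.inr b) y
  have hT : ¬ L (tv j₀) := fun b => hG.alT j₀ ((hL _).1 b).1
  have key := hE Al c δ 0 f hG j₀ K (fun g b => (hK g b).1) (fun g b => words_le (fun μ a => ?_)
    (hG.dw g)) (zero_mem _) hc l hl d h hs (fun g => words_le (fun _ => .inr) (lead g)) dd hh ?_
    (fun x hx => ?_) (fun μ => k ≤ cnt L μ) (fun μ g g' e => ?_) (fun μ => ?_)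
    (fun m _ μ a => ?_) (fun x hx => ?_) γ
  · rwa [sup_left_comm, hν] at key
  · obtain ⟨g', b1, b2⟩ := has_pos (-l) (c := c) (μ := μ) (by
      rw [a.2.1]; exact neg_pos.2 (hK g b).2.2)
    exact ⟨g', of_not_not fun e => (hl g' (a.1 g' b1) e).not_gt (neg_pos.1 b2), b1⟩
  · have e : (h * d + d * h) * (h * d + d * h) =
        h * d * h * d + h * (d * d) * h + d * (h * h) * d + d * (h * d * h) := by noncomm_ring
    rw [e, hdh, dd, hh]
    simp
  · rw [hν]
    exact hG.Dloc_has ∅ hAl st (hν ▸ Submodule.mem_sup_left hx)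
  · obtain ⟨b1, b2, b3, b4, b5, -⟩ := hs g g' e
    have : L g ↔ L g' := by simp only [hL, b1, b2, b3, b4, b5]
    simp only [cnt_add, cnt_single, this]
    exact id
  · simp only [cnt_add, cnt_single, if_neg hT, add_zero]
  · exact cnt_add L μ _ ▸ le_add_right a
  · rw [← mono_or]
    refine hG.Dloc_mem ∅ (Pg := fun g ν => L g → has L ν ∨ has K ν) (Pω := fun _ => False) hx
      (fun g => ?_) (zero_mem _) (fun g μ ν a b => ?_) (fun _ _ a => a.elim) (by simp)
    · refine words_le (fun ν a b => ?_) (hG.dl_mem g)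
      obtain ⟨g', b1, b2⟩ := has_pos l₀ (c := c) (μ := ν) (by
        rw [a.2.1]; exact ((hL g).1 b).2.2)
      have b3 : Al g' := (a.1.1 g' b1).elim id fun e => e ▸ ((hL g).1 b).1
      by_cases b4 : K g'
      · exact .inr ⟨g', b4, b1⟩
      · exact .inl ⟨g', (hL g').2 ⟨b3, b4, b2⟩, b1⟩
    · rw [cnt_add, cnt_single] at a
      rw [cnt_add, has_add]
      by_cases b1 : L g
      · rw [if_pos b1] at a
        refine (b b1).imp (fun e => ?_) .inl
        have := cnt_ne_zero.2 e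
        omega
      · rw [if_neg b1] at a
        exact .inl (by omega)

end Pool.Agent.MP_8be872_ag.H29
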