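import Pool.Agent.MP_8be872_ag.H63.SpecE
import Pool.Agent.MP_8be872_ag.H52.SlW
import Pool.Agent.MP_8be872_ag.H29.NeA

/-! The generators of positive level that cancel in pairs span an acyclic ideal. -/

set_option linter.unusedSectionVars false

namespace Pool.Agent.MP_8be872_ag.H29

open Finset H38 H56 H63 MvPolynomial
open scoped Matrix

variable {Q : Quiv} {w v D : Fin Q.n → ℕ} {d : Bas Q v → ℕ} {lab : Bas Q D → Bas Q v × ℕ}

theorem hp_inj (hl : IsLab d lab) {r r' : Nb Q w v D} {x : Bas Q v × ℕ} (h : hp lab r = some x)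
    (h' : hp lab r' = some x) : r = r' := by
  have e := h.trans h'.symm
  rcases r with τ | a | b
  · rcases r' with τ' | a' | b'
    · obtain ⟨e1, e2⟩ := Prod.mk.inj (Option.some.inj e)
      rw [hl.inj (Prod.ext e1 (Nat.succ_injective e2))]
    · cases (Prod.mk.inj (Option.some.inj e)).2
    · cases h'
  · rcases r' with τ' | a' | b'
    · cases (Prod.mk.inj (Option.some.inj e)).2
    · rw [(Prod.mk.inj (Option.some.inj e)).1]
    · cases h'
  · cases h

theorem exists_pred (hl : IsLab d lab) (τ : Bas Q D) :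
    ∃ r : Nb Q w v D, hp lab r = some (lab τ) := by
  rcases e : (lab τ).2 with _ | k
  · exact ⟨.inr (.inl (lab τ).1), congrArg some (Prod.ext rfl e.symm)⟩
  · obtain ⟨τ', h⟩ := hl.surj (lab τ).1 k (by have := hl.lt τ; omega)
    exact ⟨.inl τ', congrArg some (Prod.ext (by rw [h]) (by rw [h, e]))⟩

theorem mul_al0 (hl : IsLab d lab) {r : Nb Q w v D} {τ : Bas Q D} (h : hp lab r = some (lab τ))
    (M : Matrix (Nb Q w v D) (Nb Q w v D) ℂ) (p : Nb Q w v D) :
    (M * al0 (w := w) lab) p (.inl τ) = M p r := by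
  rw [Matrix.mul_apply, sum_eq_single r (fun b _ hb => ?_) (fun h => absurd (mem_univ _) h)]
  · exact (congrArg _ (if_pos h)).trans (mul_one _)
  · exact (congrArg _ (if_neg fun e => hb (hp_inj hl e h))).trans (mul_zero _)

theorem mul_al0T (hl : IsLab d lab) {r : Nb Q w v D} {τ : Bas Q D} (h : hp lab r = some (lab τ))
    (M : Matrix (Nb Q w v D) (Nb Q w v D) ℂ) (p : Nb Q w v D) :
    (M * (al0 (w := w) lab)ᵀ) p r = M p (.inl τ) := by
  rw [Matrix.mul_apply, sum_eq_single (.inl τ) (fun b _ hb => ?_) (fun h => absurd (mem_univ _) h)]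
  · exact (congrArg _ (if_pos h)).trans (mul_one _)
  · rcases b with τ' | b
    · exact (congrArg _ (if_neg fun e => hb (congrArg _
        (hl.inj (Option.some.inj (e.symm.trans h)))))).trans (mul_zero _)
    · exact mul_zero _

theorem lv_nonneg (hl : IsLab d lab) (p : Nb Q w v D) : 0 ≤ lv d lab p := by
  rcases p with τ | a | b
  · have := hl.lt τ
    simp only [lv]
    omega
  · exact Int.natCast_nonneg _
  · exact le_rfl

theorem lv_pred {r : Nb Q w v D} {τ : Bas Q D} (h : hp lab r = some (lab τ)) :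
    lv d lab r = lv d lab (.inl τ : Nb Q w v D) + 1 := by
  rw [(H52.pos_lv (σ := Equiv.refl _) (d := d) (a := (lab τ).1) (k := (lab τ).2) h).1]
  simp only [lv]
  ring

theorem has_pred (hl : IsLab d lab) {q : Nb Q w v D} (h : 0 < lv d lab q) :
    ∃ τ, hp lab q = some (lab τ) := by
  have h2 : blk q < 2 := by
    rcases q with τ | a | b
    exacts [Nat.zero_lt_two, Nat.one_lt_two, absurd h (lt_irrefl _)]
  obtain ⟨a, k, e⟩ := H52.hp_some (lab := lab) h2
  rw [(H52.pos_lv (σ := Equiv.refl _) e).1] at h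
  obtain ⟨τ, hτ⟩ := hl.surj a k (by omega)
  exact ⟨τ, hτ ▸ e⟩

variable (d lab) in
/-- Entries of `x` of positive level. -/
def SX (ε : Arr Q) (p q : Nb Q w v D) : Prop := shS lab (kx ε) p q ∧ 0 < lvk d lab (kx ε) p q

variable (d lab) in
/-- The entries of `θ` paired with them. -/
def TX (ε : Arr Q) (p q : Nb Q w v D) : Prop :=
  shS lab (kt ε) p q ∧ 0 < lvk d lab (kt ε) p q ∧ thP lab p q

theorem SX_iff (hl : IsLab d lab) (ε : Arr Q) (p : Nb Q w v D) {r : Nb Q w v D} {τ : Bas Q D}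
    (h : hp lab r = some (lab τ)) : SX d lab ε p r ↔ TX d lab ε p (.inl τ) := by
  obtain ⟨h1, -, h2⟩ := H52.pos_vx hl (a := (lab τ).1) (k := (lab τ).2) h
  have h3 : vx r = vx (.inl τ : Nb Q w v D) := h1.trans (hl.vert τ)
  have h4 : blk (.inl τ : Nb Q w v D) = 0 := rfl
  have h5 : arrow (.inl ε) p r ↔ arrow (.inl ε) p (.inl τ) := by
    rcases ε with ⟨_ | e, _ | _⟩ <;> simp [arrow, h3, h4, h2, h2.ne]
  have h6 : blk r = 0 ↔ (lab τ).2 ≠ 0 := by
    rcases r with τ' | a | b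
    · have := congrArg Prod.snd (Option.some.inj h)
      exact iff_of_true rfl (this ▸ Nat.succ_ne_zero _)
    · have := congrArg Prod.snd (Option.some.inj h)
      exact iff_of_false Nat.one_ne_zero (not_not.2 this.symm)
    · cases h
  have h7 : lvk d lab (kx ε) p r = lvk d lab (kt ε) p (.inl τ) := by
    simp only [lvk, lv_pred (d := d) h]
    ring
  refine ⟨fun ⟨⟨⟨a, b⟩, _⟩, c⟩ => ⟨⟨⟨h5.1 a, rfl⟩, fun e => nomatch e⟩, h7 ▸ c, τ, rfl,
    or_iff_not_imp_right.2 fun e => b (h6.2 e)⟩, fun ⟨⟨⟨a, _⟩, _⟩, c, τ', e, b⟩ =>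
      ⟨⟨⟨h5.2 a, fun e' => ?_⟩, fun e => nomatch e⟩, h7 ▸ c⟩⟩
  cases e
  exact b.resolve_right (h6.1 e')

theorem SX_pred (hl : IsLab d lab) {ε : Arr Q} {p q : Nb Q w v D} (h : SX d lab ε p q) :
    ∃ τ, hp lab q = some (lab τ) := by
  have h1 := h.2
  have h2 := lv_nonneg hl p
  simp only [lvk] at h1
  exact has_pred hl (by omega)

/-- The commutator with the shift pairs the entries of `x` and `θ`. -/
theorem shift_bij (hl : IsLab d lab) (ε : Arr Q) :
    (∀ y : Matrix (Nb Q w v D) (Nb Q w v D) ℂ, (∀ p q, ¬ SX d lab ε p q → y p q = 0) →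
      (∀ p q, TX d lab ε p q → cm0 lab y p q = 0) → y = 0) ∧
    ∀ t : Matrix (Nb Q w v D) (Nb Q w v D) ℂ, ∃ y : Matrix (Nb Q w v D) (Nb Q w v D) ℂ,
      (∀ p q, ¬ SX d lab ε p q → y p q = 0) ∧ ∀ p q, TX d lab ε p q → cm0 lab y p q = t p q := by
  classical
  let L : Module.End ℂ (Matrix (Nb Q w v D) (Nb Q w v D) ℂ) :=
    { toFun := fun y => Matrix.of fun p q =>
        y p q - if SX d lab ε p q then (al0 (w := w) lab * y * (al0 (w := w) lab)ᵀ) p q else 0
      map_add' := fun y y' => by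
        ext p q
        simp only [Matrix.of_apply, Matrix.add_apply, Matrix.mul_add, Matrix.add_mul]
        split_ifs <;> ring
      map_smul' := fun a y => by
        ext p q
        simp only [Matrix.of_apply, Matrix.smul_apply, Matrix.mul_smul, Matrix.smul_mul,
          RingHom.id_apply, smul_eq_mul]
        split_ifs <;> ring }
  have e1 : ∀ y p q, ¬ SX d lab ε p q → L y p q = y p q := fun y p q h =>
    (congrArg _ (if_neg h)).trans (sub_zero _)
  have e2 : ∀ y p r τ, hp lab r = some (lab τ) → SX d lab ε p r → L y p r = cm0 lab y p (.inl τ) :=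
    fun y p r τ h h' => by
      rw [cm0, Matrix.sub_apply, mul_al0 hl h, ← mul_al0T hl h (al0 lab * y)]
      exact congrArg (y p r - ·) (if_pos h')
  have hinj : ∀ y, L y = 0 → y = 0 := fun y hy => by
    have key : ∀ (n : ℕ) q, lv d lab q < n → ∀ p, y p q = 0 := by
      intro n
      induction n with
      | zero => exact fun q h => absurd h (lv_nonneg hl q).not_gt
      | succ n ih =>
        intro q hq p
        by_cases h : SX d lab ε p q
        · obtain ⟨τ, hτ⟩ := SX_pred hl h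
          have := e2 y p q τ hτ h
          rw [hy, cm0, Matrix.sub_apply, mul_al0 hl hτ, Matrix.mul_apply, sum_eq_zero fun r _ => by
            rw [ih _ (by have := lv_pred (d := d) hτ; omega) r, mul_zero], sub_zero] at this
          exact this.symm
        · rw [← e1 y p q h, hy, Matrix.zero_apply]
    ext p q
    exact key ((lv d lab q).toNat + 1) q (by omega) p
  refine ⟨fun y h1 h2 => hinj y ?_, fun t => ?_⟩
  · ext p q
    by_cases h : SX d lab ε p q
    · obtain ⟨τ, hτ⟩ := SX_pred hl h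
      exact (e2 y p q τ hτ h).trans (h2 _ _ ((SX_iff hl ε p hτ).1 h))
    · exact (e1 y p q h).trans (h1 p q h)
  · obtain ⟨y, hy⟩ := LinearMap.injective_iff_surjective.1 ((injective_iff_map_eq_zero L).2 hinj)
      (Matrix.of fun p q => if SX d lab ε p q then (t * (al0 (w := w) lab)ᵀ) p q else 0)
    refine ⟨y, fun p q h => ?_, fun p q h => ?_⟩
    · rw [← e1 y p q h, hy]
      exact if_neg h
    · obtain ⟨τ, rfl, -⟩ := h.2.2
      obtain ⟨r, hr⟩ := exists_pred (w := w) hl τ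
      have h' := (SX_iff hl ε p hr).2 h
      rw [← e2 y p r τ hr h', hy, ← mul_al0T hl hr t]
      exact if_pos h'

section J

variable {J : Type}

theorem ofM_gg {A : Type} (M : Kd Q → Nb Q w v D → Nb Q w v D → A) (t e : J → A) (k : Kd Q)
    (p q : Nb Q w v D) : ofM M t e (gg k p q) = M k p q := by
  rcases k with τ | τ <;> rfl

theorem of_ofM {M : Kd Q → Nb Q w v D → Nb Q w v D → Prop} {g : Ix Q w v D J ⊕ Ix Q w v D J}
    (h : ofM M ⊥ ⊥ g) : ∃ k p q, g = gg k p q ∧ M k p q := by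
  rcases g with (⟨τ, p, q⟩ | j) | (⟨τ, p, q⟩ | j)
  exacts [⟨.inl τ, p, q, rfl, h⟩, h.elim, ⟨.inr τ, p, q, rfl, h⟩, h.elim]

variable (d lab) in
/-- Sources. -/
def srcA : Ix Q w v D J ⊕ Ix Q w v D J → Prop := ofM (fun k p q =>
  (k = ka ∧ shS lab ka p q ∧ ¬ isNe d lab p q) ∨ ∃ ε, k = kt ε ∧ TX d lab ε p q) ⊥ ⊥

variable (d lab) in
/-- Targets. -/
def tgtB : Ix Q w v D J ⊕ Ix Q w v D J → Prop := ofM (fun k p q =>
  (k = kc ∧ shS lab kc p q ∧ 0 < lvk d lab kc p q) ∨ ∃ ε, k = kx ε ∧ SX d lab ε p q) ⊥ ⊥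

theorem kdeg_zero {k : Kd Q} (h : kdeg k = 0) : k = ka ∨ ∃ ε, k = kx ε := by
  rcases k with (ε | _ | _) | (ε | _ | _) <;> simp [kdeg] at h ⊢

theorem kdeg_le (k : Kd Q) : kdeg k ≤ 1 := by
  rcases k with (ε | _ | _) | (ε | _ | _) <;> simp [kdeg]

theorem bigK_iff (h : ∀ g : Ix Q w v D J ⊕ Ix Q w v D J, isN d lab g → AlS lab g)
    (g : Ix Q w v D J ⊕ Ix Q w v D J) :
    bigK d lab g ↔ srcA d lab g ∨ tgtB d lab g ∨ isN d lab g := by
  constructor
  · rintro ⟨a, b⟩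
    obtain ⟨k, p, q, rfl, a⟩ := of_ofM a
    simp only [srcA, tgtB, isN, ofM_gg] at b ⊢
    rcases b with rfl | ⟨b, rfl | ⟨ε, rfl⟩ | ⟨⟨ε, rfl⟩, c⟩⟩
    · by_cases e : isNe d lab p q
      exacts [.inr (.inr ⟨rfl, e⟩), .inl (.inl ⟨rfl, a, e⟩)]
    exacts [.inr (.inl (.inl ⟨rfl, a, b⟩)), .inr (.inl (.inr ⟨ε, rfl, a, b⟩)),
      .inl (.inr ⟨ε, rfl, a, b, c⟩)]
  · rintro (a | a | a)
    · obtain ⟨k, p, q, rfl, ⟨rfl, a, -⟩ | ⟨ε, rfl, a, b, c⟩⟩ := of_ofM a
      exacts [⟨a, .inl rfl⟩, ⟨a, .inr ⟨b, .inr (.inr ⟨⟨ε, rfl⟩, c⟩)⟩⟩]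
    · obtain ⟨k, p, q, rfl, ⟨rfl, a, b⟩ | ⟨ε, rfl, a, b⟩⟩ := of_ofM a
      exacts [⟨a, .inr ⟨b, .inl rfl⟩⟩, ⟨a, .inr ⟨b, .inr (.inl ⟨ε, rfl⟩)⟩⟩]
    · refine ⟨h g a, ?_⟩
      obtain ⟨k, p, q, rfl, rfl, -⟩ := of_ofM a
      exact .inl rfl

end J

theorem negE : ElimStmt → SlFStmt → SlWStmt → ToepStmt → LinSStmt → NegEStmt := by
  intro hE hF hW hT hL Q w v D J _ _ σ d lab m P φ₀ f φ j₀ δ₀ hc h0
  classical
  obtain ⟨hG, hq, hcd, -, -⟩ := hF Q w v D J σ d lab m hc.isLab hc.vert hc.const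
  replace hG := hG φ f hc.hom
  obtain ⟨w1, w2, w3, ⟨l, w4⟩, -⟩ := hW Q w v D J σ d lab hc.isLab hc.vert
  obtain ⟨-, t2, t3, -⟩ := hT Q w v D d lab hc.isLab
  obtain ⟨l1, l2, l3, l4⟩ := hL Q w v D J d lab hc.isLab
  have st : ∀ g, bigK d lab g → δ₀ g ∈ words (has (bigK d lab)) := by
    rintro g ⟨a, b⟩
    have b1 : 0 < lvG d lab g := by
      obtain ⟨k, p, q, rfl, a⟩ := of_ofM a
      rw [lvG, ofM_gg]
      rw [ofM_gg] at b
      rcases b with rfl | b
      exacts [w3 p q a, b.1]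
    have b2 : dS lab g ∈ words fun μ =>
        has (fun g => AlS lab g ∧ kind (· = kc) g) μ ∨ sup (E0S lab) μ := by
      obtain ⟨k, p, q, rfl, -⟩ := of_ofM a
      rw [ofM_gg] at b
      rcases b with rfl | ⟨-, rfl | ⟨ε, rfl⟩ | ⟨⟨ε, rfl⟩, -⟩⟩
      · exact words_le (fun _ => .inl) (hq.e0 _ ⟨a, rfl⟩)
      · refine words_le (fun μ e => .inl (cnt_ne_zero.1 ?_)) (hq.mono_gh _)
        rw [cnt_single, if_pos ⟨a, rfl⟩] at e
        exact Nat.one_le_iff_ne_zero.1 e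
      · exact words_le (fun _ => .inl) (hq.e0 _ ⟨a, rfl⟩)
      · rw [← sub_add_cancel (dS lab _) (mul (rS lab (gg (kt ε) p q)))]
        exact add_mem (words_le (fun _ => .inl) (hq.th _ ⟨a, rfl⟩))
          (words_le (fun _ => .inr) (mul_mem_words_of_pol (hq.rv _)))
    refine words_le ?_ (h0.lead g _ (words_and b2 (hG.dw g))).1
    rintro μ ⟨⟨⟨g', ⟨c1, c2⟩, c3⟩ | c1, c4, c5, -⟩, c6⟩
    · refine ⟨g', ⟨c1, ?_⟩, c3⟩
      rw [grC, if_neg fun e => b1.not_ge e.2.2, ws, sum_eq_zero_iff] at c6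
      have c7 := c6 g' (mem_univ _)
      rw [smul_eq_mul, mul_eq_zero, or_iff_right c3, grC, ite_eq_right_iff] at c7
      have c8 : 0 < lvG d lab g' := not_le.1 fun e => Nat.one_ne_zero (c7 ⟨c1, c2, e⟩)
      obtain ⟨k, p, q, rfl, rfl⟩ := of_ofM c2
      exact .inr ⟨c8, .inl rfl⟩
    · obtain ⟨g', c2, c3⟩ := has_pos (H38.co 0) (c := wt (xs σ d lab) φ) (μ := μ) (by
        rwa [c5, w1 φ g a])
      rw [w1 φ g' (c4 g' c2)] at c3
      refine ⟨g', ⟨c4 g' c2, ?_⟩, c2⟩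
      obtain ⟨k, p, q, rfl, e⟩ := of_ofM (c1 g' c2).2
      obtain rfl | ⟨ε, rfl⟩ := kdeg_zero e
      exacts [.inl rfl, .inr ⟨c3, .inr (.inl ⟨ε, rfl⟩)⟩]
  refine ⟨st, fun k γ => ?_⟩
  have hd : ∀ g g', d0 (w := w) (J := J) lab g g' ≠ 0 → AlS lab g ∧ AlS lab g' ∧
      wt (xs σ d lab) φ g' = wt (xs σ d lab) φ g ∧ g'.isRight = !g.isRight := fun g g' e => by
    have := lin_coeff (hG.dw g) e
    rw [ws_single, od_single] at this
    exact ⟨(l3 g g' e).1, (l3 g g' e).2, this.2⟩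
  have hgr : ∀ g g', d0 (w := w) (J := J) lab g g' ≠ 0 → grC d lab g' = grC d lab g := by
    intro g g' e
    obtain ⟨a, a', b, -⟩ := hd g g' e
    have b1 := lin_coeff (hcd g) e
    have b2 : lvG d lab g' = lvG d lab g := by rw [← w1 φ g a, ← w1 φ g' a', b]
    rw [ws_single] at b1
    obtain ⟨k, p, q, rfl, s⟩ := of_ofM a
    obtain ⟨k', p', q', rfl, -⟩ := of_ofM a'
    simp only [cdG, ofM_gg] at b1
    rw [grC, grC, if_neg, if_neg]
    · rintro ⟨-, c, -⟩
      rw [kind, ofM_gg] at c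
      subst c
      have := kdeg_le k'
      change _ = 1 + 1 at b1
      omega
    · rintro ⟨-, c, c'⟩
      rw [kind, ofM_gg] at c
      subst c
      obtain rfl | ⟨ε, rfl⟩ := kdeg_zero (k := k) (by change 1 = _ at b1; omega)
      · exact (w3 p q s).not_ge (b2 ▸ c' :)
      · refine e (Eq.trans ?_ (l4 (Pi.single (gg kc p' q') 1) (kx ε) p q s fun _ _ =>
          Pi.single_eq_of_ne (by rintro ⟨⟩) _))
        simp
  have hB0 : ∀ p q, ¬ tgtB d lab (gg ka p q : Ix Q w v D J ⊕ Ix Q w v D J) := by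
    rintro p q (⟨e, -⟩ | ⟨ε, e, -⟩) <;> cases e
  refine elim_pair (hE _ _ J G) h0.good j₀ (A := srcA d lab) (B := tgtB d lab) l (H38.co 0)
    (fun g b => ⟨w2 g b, ?_, (w4 φ g (w2 g b)).1 b⟩) (fun g a => (w4 φ g a).2) h0.closed (d0 lab)
    hd (fun g => ?_) l2 (fun g a => ?_) (fun g a b => ?_) (bigK_iff w2) (fun g a => a.1) st
    (fun g => and_congr_right fun a => by rw [w1 φ g a]) (fun y h1 h2 => ?_) (fun t => ?_) k γ
  · obtain ⟨k, p, q, rfl, rfl, -⟩ := of_ofM b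
    rfl
  · have b : dS lab g ∈ words fun μ => 2 ≤ ∑ g', μ g' ∨ ws (grC d lab) μ = grC d lab g := by
      rw [← sub_add_cancel (dS lab g) (lin (d0 lab g))]
      exact add_mem (words_le (fun _ => .inl) (l1 g)) (H80.lin_mem fun g' e =>
        .inr ((ws_single _ _).trans (hgr g g' e)))
    rw [← sub_sub_sub_cancel_left _ _ (dS lab g)]
    exact sub_mem (l1 g) (words_le (fun μ a => a.1.resolve_right a.2.ne') (h0.lead g _ b).2)
  · obtain ⟨k, p, q, rfl, ⟨rfl, -, a⟩ | ⟨ε, rfl, -⟩⟩ := of_ofM a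
    · exact ⟨fun b => a b.2, hB0 p q⟩
    · refine ⟨fun b => (by cases b.1), ?_⟩
      rintro (⟨e, -⟩ | ⟨ε, e, -⟩) <;> cases e
  · obtain ⟨k, p, q, rfl, rfl, -⟩ := of_ofM b
    exact hB0 p q a
  · have h3 : ∀ p q, y (gg ka p q) = 0 := fun p q => h1 _ (hB0 p q)
    have h4 := t2 (fun k p q => if shS lab k p q then y (gg k p q) else 0)
      (by ext p q; simp [h3]) (fun p q e => ite_eq_right_iff.2 fun _ => h1 _ (by
        rintro (⟨-, a⟩ | ⟨ε, a, -⟩)
        exacts [e a, nomatch a]))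
      fun p q a b => (l4 y ka p q a h3).symm.trans (h2 _ (.inl ⟨rfl, a, b⟩))
    have h5 := fun ε => (shift_bij hc.isLab ε).1
      (fun p q => if shS lab (kx ε) p q then y (gg (kx ε) p q) else 0)
      (fun p q e => ite_eq_right_iff.2 fun _ => h1 _ (by
        rintro (⟨a, -⟩ | ⟨ε, a, b⟩) <;> cases a
        exact e b))
      fun p q a => (l4 y (kt ε) p q a.1 h3).symm.trans (h2 _ (.inr ⟨ε, rfl, a⟩))
    funext g
    refine of_not_not fun e => ?_
    obtain ⟨k, p, q, rfl, ⟨rfl, a, -⟩ | ⟨ε, rfl, a, -⟩⟩ := of_ofM (of_not_not fun b => e (h1 g b))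
    · exact e ((if_pos a).symm.trans (congrFun (congrFun h4 p) q))
    · exact e ((if_pos a).symm.trans (congrFun (congrFun (h5 ε) p) q))
  · obtain ⟨yc, c1, c2, c3⟩ := t3 fun p q => t (gg ka p q)
    choose yx x1 x2 using fun ε => (shift_bij hc.isLab ε).2 fun p q => t (gg (kt ε) p q)
    let Z : Kd Q → Matrix (Nb Q w v D) (Nb Q w v D) ℂ := fun k => match k with
      | .inl (.inl ε) => yx ε
      | .inr (.inr true) => yc kc
      | _ => 0
    have z1 : ∀ k p q, Z k p q ≠ 0 → tgtB d lab (gg k p q : Ix Q w v D J ⊕ Ix Q w v D J) := by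
      rintro ((ε | _ | _) | (ε | _ | _)) p q e
      exacts [.inr ⟨ε, rfl, of_not_not fun b => e (x1 ε p q b)⟩, absurd rfl e, absurd rfl e,
        absurd rfl e, absurd rfl e, .inl ⟨rfl, of_not_not fun b => e (c2 p q b)⟩]
    have z2 : (fun k p q => if shS lab k p q then
        ofM Z (0 : J → ℂ) 0 (gg k p q) else 0) = Z := by
      funext k p q
      rw [ofM_gg]
      refine ite_eq_left_iff.2 fun e => Eq.symm (of_not_not fun b => e ?_)
      have := ((bigK_iff w2 _).2 (.inr (.inl (z1 k p q b)))).1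
      rwa [AlS, ofM_gg] at this
    refine ⟨ofM Z 0 0, fun g b => of_not_not fun e => b ?_, fun g a => ?_⟩
    · rcases g with (⟨τ, p, q⟩ | j) | (⟨τ, p, q⟩ | j)
      exacts [z1 (.inl τ) p q e, absurd rfl e, z1 (.inr τ) p q e, absurd rfl e]
    · obtain ⟨k, p, q, rfl, ⟨rfl, a', b⟩ | ⟨ε, rfl, a'⟩⟩ := of_ofM a
      · rw [l4 _ ka p q a' fun _ _ => rfl, ← c3 p q a' b]
        have z3 : YS lab Z kc = YS lab yc kc := by
          simp only [YS, c1]
          rfl
        erw [z2]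
        simp only [linPhi, z3]
      · rw [l4 _ (kt ε) p q a'.1 fun _ _ => rfl, ← x2 ε p q a']
        erw [z2]
        rfl

end Pool.Agent.MP_8be872_ag.H29
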