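import Pool.Agent.MP_8be872_ag.H56.GSpec
import Pool.Agent.MP_8be872_ag.H29.Car

/-! The Chevalley-Eilenberg differential squares to zero and preserves cochains. -/

namespace Pool.Agent.MP_8be872_ag.H29

open Finset H56

section Abs

variable {V E : Type} [Fintype V] [DecidableEq V] [Ring E] [Algebra ℂ E]
  {R : V × V → Prop} [DecidablePred R]

omit [Fintype V] [DecidableEq V] in
theorem eq_zero_of_eq_neg' {x : E} (h : x = -x) : x = 0 := by
  have h1 : (2 : ℂ) • x = 0 := by rw [two_smul]; exact add_eq_zero_iff_eq_neg.2 h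
  have h2 := congrArg (fun y => (2 : ℂ)⁻¹ • y) h1
  simpa [smul_smul] using h2

omit [Algebra ℂ E] in
theorem sum_comp (hR : IsRoots R) (f : V × V → E) (a b : Subtype R) :
    ∑ t : Subtype R, (if a.1.2 = b.1.1 ∧ t.1 = (a.1.1, b.1.2) then f t.1 else 0) =
      if a.1.2 = b.1.1 then f (a.1.1, b.1.2) else 0 := by
  by_cases h : a.1.2 = b.1.1
  · have h1 : R (a.1.1, b.1.2) := hR.2 _ a.1.2 _ a.2 (by rw [h]; exact b.2)
    rw [if_pos h, sum_eq_single (⟨(a.1.1, b.1.2), h1⟩ : Subtype R)]
    · rw [if_pos ⟨h, rfl⟩]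
    · intro t _ ht
      rw [if_neg]
      exact fun h2 => ht (Subtype.ext h2.2)
    · intro h2; exact absurd (mem_univ _) h2
  · rw [if_neg h]
    exact sum_eq_zero fun t _ => if_neg fun h2 => h h2.1

/-- The quadratic element attached to a root. -/
def quad (e : Subtype R → E) (t : Subtype R) : E :=
  ∑ r : Subtype R, ∑ r' : Subtype R,
    if r.1.2 = r'.1.1 ∧ t.1 = (r.1.1, r'.1.2) then e r * e r' else 0

omit [Algebra ℂ E] in
theorem quad_comm_of (e : Subtype R → E) (y : E) (h : ∀ r r', y * (e r * e r') = e r * e r' * y)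
    (t : Subtype R) : y * quad e t = quad e t * y := by
  unfold quad
  rw [mul_sum, sum_mul]
  refine sum_congr rfl fun r _ => ?_
  rw [mul_sum, sum_mul]
  refine sum_congr rfl fun r' _ => ?_
  split_ifs
  · exact h r r'
  · simp

omit [Algebra ℂ E] in
theorem sum_quad_mul (hR : IsRoots R) (e : Subtype R → E) (f : V × V → E) :
    ∑ t : Subtype R, quad e t * f t.1 =
      ∑ r : Subtype R, ∑ r' : Subtype R,
        if r.1.2 = r'.1.1 then e r * e r' * f (r.1.1, r'.1.2) else 0 := by
  unfold quad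
  simp_rw [sum_mul]
  rw [sum_comm]
  refine sum_congr rfl fun r _ => ?_
  rw [sum_comm]
  refine sum_congr rfl fun r' _ => ?_
  rw [← sum_comp hR (fun t => e r * e r' * f t) r r']
  refine sum_congr rfl fun t _ => ?_
  split_ifs <;> simp

omit [Algebra ℂ E] in
theorem quad_assoc (hR : IsRoots R) (e : Subtype R → E) (u : Subtype R) :
    (∑ r : Subtype R, ∑ r' : Subtype R,
      if r.1.2 = r'.1.1 ∧ u.1 = (r.1.1, r'.1.2) then quad e r * e r' else 0) =
    ∑ r : Subtype R, ∑ r' : Subtype R,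
      if r.1.2 = r'.1.1 ∧ u.1 = (r.1.1, r'.1.2) then e r * quad e r' else 0 := by
  have h1 : (∑ r : Subtype R, ∑ r' : Subtype R,
      if r.1.2 = r'.1.1 ∧ u.1 = (r.1.1, r'.1.2) then quad e r * e r' else 0) =
      ∑ a : Subtype R, ∑ b : Subtype R, ∑ c : Subtype R,
        if a.1.2 = b.1.1 ∧ b.1.2 = c.1.1 ∧ u.1 = (a.1.1, c.1.2) then e a * e b * e c else 0 := by
    have h2 := sum_quad_mul hR e
      (fun t => ∑ c : Subtype R, if t.2 = c.1.1 ∧ u.1 = (t.1, c.1.2) then e c else 0)
    calc _ = ∑ t : Subtype R, quad e t *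
          ∑ c : Subtype R, if t.1.2 = c.1.1 ∧ u.1 = (t.1.1, c.1.2) then e c else 0 := by
          refine sum_congr rfl fun r _ => ?_
          rw [mul_sum]
          refine sum_congr rfl fun r' _ => ?_
          split_ifs <;> simp
      _ = _ := by
          rw [h2]
          refine sum_congr rfl fun a _ => sum_congr rfl fun b _ => ?_
          by_cases h3 : a.1.2 = b.1.1
          · rw [if_pos h3, mul_sum]
            refine sum_congr rfl fun c _ => ?_
            simp only [h3, true_and]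
            split_ifs <;> simp
          · rw [if_neg h3]
            exact (sum_eq_zero fun c _ => if_neg fun h4 => h3 h4.1).symm
  rw [h1]
  refine sum_congr rfl fun a _ => ?_
  have h2 := sum_quad_mul hR e
    (fun t => if a.1.2 = t.1 ∧ u.1 = (a.1.1, t.2) then 1 else 0)
  calc _ = e a * ∑ b : Subtype R, ∑ c : Subtype R, if b.1.2 = c.1.1 then e b * e c *
        (if a.1.2 = b.1.1 ∧ u.1 = (a.1.1, c.1.2) then 1 else 0) else 0 := by
        rw [mul_sum]
        refine sum_congr rfl fun b _ => ?_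
        rw [mul_sum]
        refine sum_congr rfl fun c _ => ?_
        by_cases h3 : b.1.2 = c.1.1 <;> by_cases h4 : a.1.2 = b.1.1 <;>
          by_cases h5 : u.1 = (a.1.1, c.1.2) <;> simp [h3, h4, h5, mul_assoc]
    _ = _ := by
        rw [← h2, mul_sum]
        refine sum_congr rfl fun t _ => ?_
        split_ifs <;> simp

theorem abs_sq (hR : IsRoots R) (e ι : Subtype R → E) (ρ : V × V → E)
    (hee : ∀ r s, e r * e s = -(e s * e r)) (hιι : ∀ r s, ι r * ι s = -(ι s * ι r))
    (hιe : ∀ r s, ι r * e s = (if r = s then 1 else 0) - e s * ι r)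
    (hρe : ∀ a s, ρ a * e s = e s * ρ a) (hρι : ∀ a s, ρ a * ι s = ι s * ρ a)
    (hb : ∀ r r', R r → R r' → ρ r * ρ r' - ρ r' * ρ r =
      (if r.2 = r'.1 then ρ (r.1, r'.2) else 0) - if r'.2 = r.1 then ρ (r'.1, r.2) else 0) :
    (∑ r : Subtype R, e r * ρ r - ∑ t : Subtype R, quad e t * ι t) *
      (∑ r : Subtype R, e r * ρ r - ∑ t : Subtype R, quad e t * ι t) = 0 := by
  set A := ∑ r : Subtype R, e r * ρ r with hA
  set Q := ∑ t : Subtype R, quad e t * ι t with hQ
  have heq : ∀ s t, e s * quad e t = quad e t * e s := fun s t =>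
    quad_comm_of e _ (fun r r' => by
      rw [← mul_assoc, hee s r, neg_mul, mul_assoc, hee s r', mul_neg, neg_neg, mul_assoc]) t
  have hρq : ∀ s t, ρ s * quad e t = quad e t * ρ s := fun s t =>
    quad_comm_of e _ (fun r r' => by
      rw [← mul_assoc, hρe s r, mul_assoc, hρe s r', mul_assoc]) t
  have hqq : ∀ s t, quad e s * quad e t = quad e t * quad e s := fun s t =>
    quad_comm_of e _ (fun r r' => by
      rw [← mul_assoc, ← heq r s, mul_assoc, ← heq r' s, mul_assoc]) t
  have hAA : A * A = ∑ t : Subtype R, quad e t * ρ t := by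
    have h1 : A * A = ∑ r : Subtype R, ∑ r' : Subtype R, e r * e r' * (ρ r * ρ r') := by
      rw [hA, sum_mul_sum]
      refine sum_congr rfl fun r _ => sum_congr rfl fun r' _ => ?_
      rw [mul_assoc, ← mul_assoc (ρ r), hρe, mul_assoc, mul_assoc]
    have h2 : A * A = -∑ r : Subtype R, ∑ r' : Subtype R, e r * e r' * (ρ r' * ρ r) := by
      rw [h1, sum_comm, ← sum_neg_distrib]
      refine sum_congr rfl fun r _ => ?_
      rw [← sum_neg_distrib]
      refine sum_congr rfl fun r' _ => ?_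
      rw [hee r' r, neg_mul]
    have h3 := sum_quad_mul hR e ρ
    have h4 : ∑ t : Subtype R, quad e t * ρ t = -∑ r : Subtype R, ∑ r' : Subtype R,
        if r'.1.2 = r.1.1 then e r * e r' * ρ (r'.1.1, r.1.2) else 0 := by
      rw [h3, sum_comm, ← sum_neg_distrib]
      refine sum_congr rfl fun r _ => ?_
      rw [← sum_neg_distrib]
      refine sum_congr rfl fun r' _ => ?_
      split_ifs
      · rw [hee r' r, neg_mul]
      · rw [neg_zero]
    have h5 : A * A + A * A =
        ∑ t : Subtype R, quad e t * ρ t + ∑ t : Subtype R, quad e t * ρ t := by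
      nth_rewrite 1 [h1]
      nth_rewrite 1 [h3]
      rw [h2, h4, ← sub_eq_add_neg, ← sub_eq_add_neg, ← sum_sub_distrib, ← sum_sub_distrib]
      refine sum_congr rfl fun r _ => ?_
      rw [← sum_sub_distrib, ← sum_sub_distrib]
      refine sum_congr rfl fun r' _ => ?_
      rw [← mul_sub, hb r r' r.2 r'.2, mul_sub]
      split_ifs <;> simp
    have h6 : A * A - ∑ t : Subtype R, quad e t * ρ t =
        -(A * A - ∑ t : Subtype R, quad e t * ρ t) := by
      rw [← sub_eq_zero] at h5 ⊢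
      rw [← h5]; abel
    exact sub_eq_zero.1 (eq_zero_of_eq_neg' h6)
  have hAQ : A * Q + Q * A = ∑ t : Subtype R, quad e t * ρ t := by
    rw [hA, hQ, sum_mul_sum, sum_mul_sum, sum_comm, ← sum_add_distrib]
    refine sum_congr rfl fun t _ => ?_
    rw [← sum_add_distrib]
    have h1 : ∀ s : Subtype R, e s * ρ s * (quad e t * ι t) + quad e t * ι t * (e s * ρ s) =
        if t = s then quad e t * ρ s else 0 := by
      intro s
      have h2 : e s * ρ s * (quad e t * ι t) = quad e t * (e s * ι t) * ρ s := by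
        rw [mul_assoc, ← mul_assoc (ρ s), hρq, mul_assoc, hρι, ← mul_assoc, heq]
        simp only [mul_assoc]
      have h3 : quad e t * ι t * (e s * ρ s) = quad e t * (ι t * e s) * ρ s := by
        simp only [mul_assoc]
      rw [h2, h3, hιe, ← add_mul, ← mul_add, add_sub_cancel]
      split_ifs <;> simp
    simp_rw [h1]
    rw [sum_ite_eq]; simp
  have hιq : ∀ t u, ι t * quad e u = quad e u * ι t + ∑ r : Subtype R, ∑ r' : Subtype R,
      if r.1.2 = r'.1.1 ∧ u.1 = (r.1.1, r'.1.2) then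
        ((if t = r then e r' else 0) - if t = r' then e r else 0) else 0 := by
    intro t u
    unfold quad
    rw [mul_sum, sum_mul, ← sum_add_distrib]
    refine sum_congr rfl fun r _ => ?_
    rw [mul_sum, sum_mul, ← sum_add_distrib]
    refine sum_congr rfl fun r' _ => ?_
    by_cases h : r.1.2 = r'.1.1 ∧ u.1 = (r.1.1, r'.1.2)
    · rw [if_pos h, if_pos h, ← mul_assoc, hιe, sub_mul, mul_assoc, hιe, mul_sub, mul_assoc]
      split_ifs <;> simp <;> abel
    · simp [h]
  have hQQ : Q * Q = 0 := by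
    have h1 : Q * Q = ∑ t : Subtype R, ∑ u : Subtype R, quad e t * quad e u * (ι t * ι u) +
        ∑ u : Subtype R, (∑ t : Subtype R, quad e t * ∑ r : Subtype R, ∑ r' : Subtype R,
          if r.1.2 = r'.1.1 ∧ u.1 = (r.1.1, r'.1.2) then
            ((if t = r then e r' else 0) - if t = r' then e r else 0) else 0) * ι u := by
      simp_rw [sum_mul]
      rw [sum_comm (f := fun u t => quad e t * _ * ι u), ← sum_add_distrib, hQ, sum_mul_sum]
      refine sum_congr rfl fun t _ => ?_
      rw [← sum_add_distrib]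
      refine sum_congr rfl fun u _ => ?_
      rw [mul_assoc, ← mul_assoc (ι t), hιq, add_mul, mul_add]
      simp only [mul_assoc]
    have h2 : ∑ t : Subtype R, ∑ u : Subtype R, quad e t * quad e u * (ι t * ι u) = 0 := by
      apply eq_zero_of_eq_neg'
      nth_rewrite 1 [sum_comm]
      rw [← sum_neg_distrib]
      refine sum_congr rfl fun t _ => ?_
      rw [← sum_neg_distrib]
      refine sum_congr rfl fun u _ => ?_
      rw [hqq u t, hιι u t, mul_neg]
    have h3 : ∀ u : Subtype R, (∑ t : Subtype R, quad e t * ∑ r : Subtype R, ∑ r' : Subtype R,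
          if r.1.2 = r'.1.1 ∧ u.1 = (r.1.1, r'.1.2) then
            ((if t = r then e r' else 0) - if t = r' then e r else 0) else 0) = 0 := by
      intro u
      refine Eq.trans ?_ (sub_eq_zero.2 (quad_assoc hR e u))
      rw [← sum_sub_distrib]
      simp_rw [mul_sum]
      rw [sum_comm]
      refine sum_congr rfl fun r _ => ?_
      rw [sum_comm, ← sum_sub_distrib]
      refine sum_congr rfl fun r' _ => ?_
      by_cases h : r.1.2 = r'.1.1 ∧ u.1 = (r.1.1, r'.1.2)
      · simp only [if_pos h, mul_sub, sum_sub_distrib, mul_ite, mul_zero, sum_ite_eq', mem_univ,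
          if_true, heq]
      · simp [h]
    rw [h1, h2, zero_add]
    exact sum_eq_zero fun u _ => by rw [h3, zero_mul]
  rw [sub_mul, mul_sub, mul_sub, hQQ, hAA, ← hAQ]
  abel

end Abs

variable {V M : Type} [Fintype V] [DecidableEq V] [AddCommGroup M] [Module ℂ M]
  {R : V × V → Prop} [DecidablePred R]

theorem dCE_eq (ρ : V × V → M →ₗ[ℂ] M) :
    dCE R ρ = (∑ r : Subtype R, (wedge r : Module.End ℂ (Finset (Subtype R) → M)) *
        (ρ r).compLeft (Finset (Subtype R)) -
      ∑ t : Subtype R, quad (E := Module.End ℂ (Finset (Subtype R) → M)) (fun r => wedge r) t *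
        contr t) := by
  unfold dCE quad
  congr 1
  simp_rw [sum_mul]
  symm
  rw [sum_comm]
  refine sum_congr rfl fun r _ => ?_
  rw [sum_comm]
  refine sum_congr rfl fun r' _ => sum_congr rfl fun t _ => ?_
  split_ifs
  · rfl
  · rw [zero_mul]

theorem dCE_sq (hR : IsRoots R) {x : V → H38.G} {W : H38.G → Submodule ℂ M}
    {ρ : V × V → M →ₗ[ℂ] M} (h : IsRep R x W ρ) : dCE R ρ ∘ₗ dCE R ρ = 0 := by
  rw [dCE_eq]
  refine abs_sq (E := Module.End ℂ (Finset (Subtype R) → M)) hR (fun r => wedge r)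
    (fun r => contr r) (fun r => (ρ r).compLeft (Finset (Subtype R))) wedge_mul_wedge
    contr_mul_contr contr_mul_wedge (fun a s => compLeft_mul_wedge _ _)
    (fun a s => compLeft_mul_contr _ _) fun r r' hr hr' => ?_
  refine LinearMap.ext fun φ => funext fun S => ?_
  have h1 := LinearMap.congr_fun (h.brk r r' hr hr') (φ S)
  split_ifs at h1 ⊢ <;> simpa using h1

theorem dCE_dCE (hR : IsRoots R) {x : V → H38.G} {W : H38.G → Submodule ℂ M}
    {ρ : V × V → M →ₗ[ℂ] M} (h : IsRep R x W ρ) (φ : Finset (Subtype R) → M) :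
    dCE R ρ (dCE R ρ φ) = 0 := LinearMap.congr_fun (dCE_sq hR h) φ

theorem dCE_apply (ρ : V × V → M →ₗ[ℂ] M) (φ : Finset (Subtype R) → M) :
    dCE R ρ φ = ∑ r : Subtype R, wedge r ((ρ r).compLeft (Finset (Subtype R)) φ) -
      ∑ r : Subtype R, ∑ r' : Subtype R, ∑ r'' : Subtype R,
        if r.1.2 = r'.1.1 ∧ r''.1 = (r.1.1, r'.1.2) then wedge r (wedge r' (contr r'' φ))
        else 0 := by
  unfold dCE
  simp only [LinearMap.sub_apply, LinearMap.sum_apply, LinearMap.comp_apply]
  congr 1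
  refine sum_congr rfl fun r _ => sum_congr rfl fun r' _ => sum_congr rfl fun t _ => ?_
  split_ifs <;> rfl

theorem dCE_mem_extOf {ρ : V × V → M →ₗ[ℂ] M} {Z : Submodule ℂ M}
    (hZ : ∀ r, R r → ∀ m ∈ Z, ρ r m ∈ Z) {φ : Finset (Subtype R) → M}
    (h : φ ∈ extOf (Subtype R) Z) : dCE R ρ φ ∈ extOf (Subtype R) Z := by
  rw [dCE_apply]
  refine sub_mem (sum_mem fun r _ => wedge_mem_extOf r ?_)
    (sum_mem fun r _ => sum_mem fun r' _ => sum_mem fun t _ => ?_)
  · exact mem_extOf.2 fun S => hZ r r.2 _ (mem_extOf.1 h S)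
  · split_ifs
    · exact wedge_mem_extOf _ (wedge_mem_extOf _ (contr_mem_extOf _ h))
    · exact zero_mem _

theorem dCE_mem_par (ρ : V × V → M →ₗ[ℂ] M) {p : Bool} {φ : Finset (Subtype R) → M}
    (h : φ ∈ par (Subtype R) M p) : dCE R ρ φ ∈ par (Subtype R) M (!p) := by
  rw [dCE_apply]
  refine sub_mem (sum_mem fun r _ => wedge_mem_par r (compLeft_mem_par _ h))
    (sum_mem fun r _ => sum_mem fun r' _ => sum_mem fun t _ => ?_)
  split_ifs
  · have h1 := wedge_mem_par r' (contr_mem_par t h)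
    rw [Bool.not_not] at h1
    exact wedge_mem_par _ h1
  · exact zero_mem _

theorem dCE_mem_extW {x : V → H38.G} {W : H38.G → Submodule ℂ M} {ρ : V × V → M →ₗ[ℂ] M}
    (hw : ∀ r, R r → ∀ γ, ∀ m ∈ W γ, ρ r m ∈ W (γ + (x r.1 - x r.2))) {γ : H38.G}
    {φ : Finset (Subtype R) → M} (h : φ ∈ extW (fun r : Subtype R => x r.1.2 - x r.1.1) W γ) :
    dCE R ρ φ ∈ extW (fun r : Subtype R => x r.1.2 - x r.1.1) W γ := by
  rw [dCE_apply]
  refine sub_mem (sum_mem fun r _ => ?_)
    (sum_mem fun r _ => sum_mem fun r' _ => sum_mem fun t _ => ?_)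
  · have h1 : (ρ r).compLeft (Finset (Subtype R)) φ ∈
        extW (fun r : Subtype R => x r.1.2 - x r.1.1) W (γ + (x r.1.1 - x r.1.2)) := by
      refine mem_extW.2 fun S => ?_
      have h2 := hw r r.2 _ _ (mem_extW.1 h S)
      rw [add_sub_right_comm]
      exact h2
    have h2 := wedge_mem_extW r h1
    have h3 : γ + (x r.1.1 - x r.1.2) + (x r.1.2 - x r.1.1) = γ := by abel
    rwa [h3] at h2
  · split_ifs with h1
    · have h2 := wedge_mem_extW r (wedge_mem_extW r' (contr_mem_extW t h))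
      have h3 : γ - (x t.1.2 - x t.1.1) + (x r'.1.2 - x r'.1.1) + (x r.1.2 - x r.1.1) = γ := by
        rw [h1.2, h1.1]; abel
      rwa [h3] at h2
    · exact zero_mem _

theorem dCE_mem_cochains {x : V → H38.G} {W : H38.G → Submodule ℂ M} {ρ : V × V → M →ₗ[ℂ] M}
    (h : IsRep R x W ρ) {Z : Submodule ℂ M} (hZ : ∀ r, R r → ∀ m ∈ Z, ρ r m ∈ Z) {γ : H38.G}
    {p : Bool} {φ : Finset (Subtype R) → M} (hφ : φ ∈ cochains R x W Z γ p) :
    dCE R ρ φ ∈ cochains R x W Z γ (!p) :=
  ⟨⟨dCE_mem_extOf hZ hφ.1.1, dCE_mem_extW h.wt hφ.1.2⟩, dCE_mem_par ρ hφ.2⟩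

end Pool.Agent.MP_8be872_ag.H29
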